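import Pool.Agent.V7H78.RP.UH.L10
import Pool.Agent.V7H78.RP.UH.H6

/-!
# The local theorem at every place
-/

namespace Pool.Agent.V7H78.RP.UH

open Pool.Agent.V7H78.RP.UB Pool.Agent.V7H78.RP.UG Finset Polynomial

universe u

variable {k : Type*} {K : Type u} [Field k] [Field K] [Algebra k K] [DecidableEq K]

theorem local_all' [Infinite k] (Q : PlaceData k K) (v : Q.Pl) (d : ℕ) (hd : 2 ≤ d)
    (p q : Polynomial K) (hp : p.natDegree ≤ d) (hq : q.natDegree = d) (hco : IsCoprime p q)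
    (P : Finset K) (hP : ∀ z ∈ P, q.eval z ≠ 0 ∧ p.eval z / q.eval z ∈ P) (a : K → ℝ)
    (ha : ∀ z ∈ P, (d : ℝ) * a z = Q.ord v (q.eval z) + a (p.eval z / q.eval z)) (ρ : ℝ)
    (hres : resultant q p d d ≠ 0)
    (hρ : ρ = (Q.ord v (resultant q p d d) : ℝ) / (d * ((d : ℝ) - 1))) :
    Nonempty (LD Q v d P a ρ) := by
  by_cases hπ : ∃ π : K, π ≠ 0 ∧ Q.ord v π ≠ 0
  · obtain ⟨μ, lam, ν, τ, R, h1, h2, h3, h4, h5, h6⟩ :=
      local_all Q v d hd p q hp hq hco P hP a ha ρ hρ hπ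
    exact ⟨⟨μ, lam, ν, τ, R, h1, h2, h3, h4, h5, h6⟩⟩
  · push Not at hπ
    have hρ0 : ρ = 0 := by
      rw [hρ, hπ _ hres]
      simp
    have ha0 : ∀ z ∈ P, a z = 0 := by
      apply stable_zero d hd P (fun z => p.eval z / q.eval z) (fun z hz => (hP z hz).2) a
      intro z hz
      rw [ha z hz, hπ _ (hP z hz).1]
      simp
    have hinf : Infinite K := Infinite.of_injective _ (algebraMap k K).injective
    obtain ⟨μ, hμ⟩ := Infinite.exists_notMem_finset P
    have hzμ : ∀ z ∈ P, z ≠ μ := fun z hz h => hμ (h ▸ hz)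
    refine ⟨⟨μ, 1, 0, 0, 0, one_ne_zero, fun z hz => ⟨hzμ z hz, fun h => (hπ _ h).ge⟩, ?_, ?_, ?_,
      ?_⟩⟩
    · rw [hρ0, PlaceData.ord_one]
      simp
    · intro z hz
      unfold Az
      rw [ha0 z hz, hπ _ (div_ne_zero one_ne_zero (sub_ne_zero.mpr (hzμ z hz)))]
      simp
    · intro n _
      have h1 : ∑ z ∈ P, ∑ z' ∈ P, (if z = z' then 0 else GG Q v a ρ z z') = 0 := by
        apply Finset.sum_eq_zero
        intro z hz
        apply Finset.sum_eq_zero
        intro z' hz'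
        split_ifs with h
        · rfl
        · unfold GG
          rw [hπ _ (sub_ne_zero.mpr h), ha0 z hz, ha0 z' hz', hρ0]
          simp
      rw [h1]
      simp
    · intro h
      omega

end Pool.Agent.V7H78.RP.UH
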