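import Pool.Agent.V7H78.RP.UH.R1
import Pool.Agent.V7H78.RP.UG.B6

/-!
# Functionals are nonzero at many points
-/

namespace Pool.Agent.V7H78.RP.UH

open Pool.Agent.V7H78.RP.UB Pool.Agent.V7H78.RP.UG Finset Polynomial

variable {k K : Type*} [Field k] [Field K] [Algebra k K] [DecidableEq K]

/-- Functionals are nonzero at many points. -/
lemma functional_countR (Q : PlaceData k K) (p q : K[X]) (d : ℕ) (hd : 2 ≤ d)
    (hp : p.natDegree ≤ d) (hq : q.natDegree = d) (hpq : IsCoprime p q) (P : Finset K)
    (hP : ∀ z ∈ P, q.eval z ≠ 0 ∧ p.eval z / q.eval z ∈ P) (m : ℕ)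
    (hna : ∀ T ⊆ P, ∀ α β γ : K, (∀ x ∈ T, Q.D x = α * x ^ 2 + β * x + γ) →
      P.card < (d + 1) * (P \ T).card + (3 * d + 4))
    (hN : 4 * ((m + 3) * (d + 1)) ≤ P.card)
    (b : K) (F : (Fin (2 * m) → K) →ₗ[K] K) (hF : F ≠ 0) :
    ∃ C ⊆ P, 1 / (2 * ((d : ℝ) + 1)) * P.card ≤ (C.card : ℝ) ∧
      ∀ z ∈ C, F (Phi Q m b z) ≠ 0 := by
  set c : Fin (2 * m) → K := fun j => F (fun j' => if j = j' then 1 else 0) with hc
  have hFc : ∀ u : Fin (2 * m) → K, F u = ∑ j, u j * c j := by
    intro u
    rw [LinearMap.pi_apply_eq_sum_univ]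
    rfl
  set A₀ : K[X] := ∑ j, if (mu m j).2 then C (c j) * X ^ (mu m j).1 else 0 with hA₀
  set B₀ : K[X] := ∑ j, if (mu m j).2 then 0 else C (c j) * X ^ (mu m j).1 with hB₀
  set A : K[X] := A₀.comp (X - C b) with hA
  set B : K[X] := C (Q.D b) * A - B₀.comp (X - C b) with hB
  have hval : ∀ z, F (Phi Q m b z) = A.eval z * Q.D z - B.eval z := by
    intro z
    have h1 : A.eval z = ∑ j, if (mu m j).2 then c j * (z - b) ^ (mu m j).1 else 0 := by
      rw [hA, eval_comp, hA₀, eval_finsetSum]
      apply Finset.sum_congr rfl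
      intro j _
      split_ifs <;> simp
    have h2 : (B₀.comp (X - C b)).eval z =
        ∑ j, if (mu m j).2 then 0 else c j * (z - b) ^ (mu m j).1 := by
      rw [eval_comp, hB₀, eval_finsetSum]
      apply Finset.sum_congr rfl
      intro j _
      split_ifs <;> simp
    have h3 : F (Phi Q m b z) = A.eval z * Q.D (z - b) + (B₀.comp (X - C b)).eval z := by
      rw [hFc, h1, h2, Finset.sum_mul, ← Finset.sum_add_distrib]
      apply Finset.sum_congr rfl
      intro j _
      unfold Phi
      obtain ⟨⟨a, e⟩, hae⟩ : ∃ q, mu m j = q := ⟨_, rfl⟩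
      rw [hae]
      cases e
      · simp
        ring
      · simp
        ring
    rw [h3, hB, eval_sub, eval_mul, eval_C, map_sub]
    ring
  have hdegA₀ : A₀.natDegree ≤ m := by
    rw [hA₀]
    apply natDegree_sum_le_of_forall_le
    intro j _
    split_ifs
    · exact (natDegree_C_mul_X_pow_le _ _).trans (mu_fst_le m j)
    · simp
  have hdegB₀ : B₀.natDegree ≤ m := by
    rw [hB₀]
    apply natDegree_sum_le_of_forall_le
    intro j _
    split_ifs
    · simp
    · exact (natDegree_C_mul_X_pow_le _ _).trans (mu_fst_le m j)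
  have hdegA : A.natDegree ≤ m := by
    rw [hA, natDegree_comp, natDegree_X_sub_C, mul_one]
    exact hdegA₀
  have hdegB : B.natDegree ≤ m := by
    rw [hB]
    refine (natDegree_sub_le _ _).trans (max_le ?_ ?_)
    · exact (natDegree_C_mul_le _ _).trans hdegA
    · rw [natDegree_comp, natDegree_X_sub_C, mul_one]
      exact hdegB₀
  have hcomp0 : ∀ G : K[X], G.comp (X - C b) = 0 → G = 0 := by
    intro G hG
    have h1 := congrArg (fun q : K[X] => q.comp (X + C b)) hG
    simp only [comp_assoc, sub_comp, X_comp, C_comp, add_sub_cancel_right, comp_X,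
      zero_comp] at h1
    exact h1
  have hne : A ≠ 0 ∨ B ≠ 0 := by
    by_contra hcon
    push Not at hcon
    obtain ⟨h1, h2⟩ := hcon
    have hA₀z : A₀ = 0 := hcomp0 _ h1
    have hB₀z : B₀ = 0 := by
      apply hcomp0
      rw [hB, h1, mul_zero, zero_sub, neg_eq_zero] at h2
      exact h2
    apply hF
    have hcz : ∀ j, c j = 0 := by
      intro j
      by_cases hj : (mu m j).2 = true
      · have h3 : A₀.coeff (mu m j).1 = c j := by
          rw [hA₀, finsetSum_coeff, Finset.sum_eq_single j]
          · rw [if_pos hj, coeff_C_mul, coeff_X_pow, if_pos rfl, mul_one]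
          · intro j' _ hne
            split_ifs with hj'
            · rw [coeff_C_mul, coeff_X_pow, if_neg, mul_zero]
              intro he
              apply hne
              apply mu_inj m
              exact Prod.ext he.symm (by rw [hj, hj'])
            · simp
          · intro h
            exact absurd (Finset.mem_univ _) h
        rw [hA₀z, coeff_zero] at h3
        exact h3.symm
      · have h3 : B₀.coeff (mu m j).1 = c j := by
          rw [hB₀, finsetSum_coeff, Finset.sum_eq_single j]
          · rw [if_neg hj, coeff_C_mul, coeff_X_pow, if_pos rfl, mul_one]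
          · intro j' _ hne
            split_ifs with hj'
            · simp
            · rw [coeff_C_mul, coeff_X_pow, if_neg, mul_zero]
              intro he
              apply hne
              apply mu_inj m
              exact Prod.ext he.symm (by
                rw [Bool.not_eq_true] at hj hj'
                rw [hj, hj'])
          · intro h
            exact absurd (Finset.mem_univ _) h
        rw [hB₀z, coeff_zero] at h3
        exact h3.symm
    ext u
    simp only [LinearMap.comp_apply, LinearMap.zero_apply]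
    rw [hFc]
    apply Finset.sum_eq_zero
    intro j _
    rw [hcz j, mul_zero]
  set T := P.filter fun z => F (Phi Q m b z) = 0 with hT
  have hTP : T ⊆ P := Finset.filter_subset _ _
  refine ⟨P \ T, Finset.sdiff_subset, ?_, ?_⟩
  · by_contra hcon
    push Not at hcon
    have hd0 : (0 : ℝ) < 2 * ((d : ℝ) + 1) := by positivity
    rw [one_div, ← div_eq_inv_mul, lt_div_iff₀ hd0] at hcon
    have hbig : 2 * (d + 1) * (P \ T).card < P.card := by
      have h1 : (((P \ T).card * (2 * (d + 1)) : ℕ) : ℝ) < (P.card : ℝ) := by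
        push_cast
        exact hcon
      have h2 : (P \ T).card * (2 * (d + 1)) < P.card := by exact_mod_cast h1
      rw [mul_comm]
      exact h2
    obtain ⟨α, β, γ, T', hT'T, hT'c, hT'⟩ := rigidityR Q p q d hd hp hq hpq P hP m A B hne hdegA
      hdegB T hTP (fun x hx => by
        have h1 := (Finset.mem_filter.mp hx).2
        rw [hval] at h1
        exact sub_eq_zero.mp h1) hbig hN
    have h1 := hna T' (hT'T.trans hTP) α β γ hT'
    have h2 : (P \ T).card + T.card = P.card := by
      rw [Finset.card_sdiff_of_subset hTP]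
      have := Finset.card_le_card hTP
      omega
    have h3 : (P \ T').card + T'.card = P.card := by
      rw [Finset.card_sdiff_of_subset (hT'T.trans hTP)]
      have := Finset.card_le_card (hT'T.trans hTP)
      omega
    have h4 : (P \ T').card ≤ (P \ T).card + m := by omega
    have h5 : (d + 1) * (P \ T').card ≤ (d + 1) * (P \ T).card + (d + 1) * m := by
      rw [← mul_add]
      exact Nat.mul_le_mul_left _ h4
    have h6 : 2 * (d + 1) * (P \ T).card = 2 * ((d + 1) * (P \ T).card) := by ring
    have h7 : 4 * ((m + 3) * (d + 1)) = 4 * ((d + 1) * m) + 12 * d + 12 := by ring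
    rw [h6] at hbig
    rw [h7] at hN
    omega
  · intro z hz h0
    rw [Finset.mem_sdiff] at hz
    exact hz.2 (Finset.mem_filter.mpr ⟨hz.1, h0⟩)

end Pool.Agent.V7H78.RP.UH
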