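import Pool.Agent.V7H78.RP.UH.H8
import Pool.Agent.V7H78.RP.UH.L11
import Pool.Agent.V7H78.RP.UH.R2
import Pool.Agent.V7H78.RP.UH.I1

/-!
# The bound for finite stable sets
-/

namespace Pool.Agent.V7H78.RP.UH

open Pool.Agent.V7H78.RP.UB Pool.Agent.V7H78.RP.UG Finset Polynomial

universe u

variable {k : Type*} {K : Type u} [Field k] [Field K] [Algebra k K]

lemma res_ne (d : ℕ) (p q : Polynomial K) (hp : p.natDegree ≤ d) (hq : q.natDegree = d)
    (hd : 1 ≤ d) (hco : IsCoprime p q) : resultant q p d d ≠ 0 := by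
  intro h0
  set φ := algebraMap K (AlgebraicClosure K) with hφ
  have h1 := resultant_eq_prod_eval (q.map φ) (p.map φ) d (natDegree_map_le.trans hp)
    (IsAlgClosed.splits _)
  rw [natDegree_map, hq, resultant_map_map, h0, map_zero] at h1
  have hq0 : q.map φ ≠ 0 := by
    intro h
    have h2 : (q.map φ).natDegree = d := by rw [natDegree_map, hq]
    rw [h, natDegree_zero] at h2
    omega
  have h2 := (mul_eq_zero.mp h1.symm).resolve_left (pow_ne_zero _ (leadingCoeff_ne_zero.mpr hq0))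
  rw [Multiset.prod_eq_zero_iff, Multiset.mem_map] at h2
  obtain ⟨x, hx, hpx⟩ := h2
  have hqx : (q.map φ).eval x = 0 := (mem_roots hq0).mp hx
  obtain ⟨u, w, h⟩ := hco
  have h3 := congrArg (fun g : Polynomial K => (g.map φ).eval x) h
  simp only [Polynomial.map_add, Polynomial.map_mul, Polynomial.map_one, eval_add, eval_mul,
    eval_one] at h3
  rw [hpx, hqx, mul_zero, mul_zero, add_zero] at h3
  exact zero_ne_one h3

lemma exists_a [DecidableEq K] (d : ℕ) (hd : 2 ≤ d) (P : Finset K) (f : K → K)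
    (hf : ∀ z ∈ P, f z ∈ P) (g : K → ℝ) :
    ∃ a : K → ℝ, ∀ z ∈ P, (d : ℝ) * a z = g z + a (f z) := by
  classical
  let T : ({z // z ∈ P} → ℝ) →ₗ[ℝ] ({z // z ∈ P} → ℝ) :=
    { toFun := fun φ z => (d : ℝ) * φ z - φ ⟨f z.1, hf z.1 z.2⟩
      map_add' := by
        intro φ ψ
        funext z
        simp only [Pi.add_apply]
        ring
      map_smul' := by
        intro c φ
        funext z
        simp only [Pi.smul_apply, smul_eq_mul, RingHom.id_apply]
        ring }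
  have hinj : Function.Injective T := by
    rw [← LinearMap.ker_eq_bot, LinearMap.ker_eq_bot']
    intro φ hφ
    have h1 := stable_zero d hd P f hf (fun z => if h : z ∈ P then φ ⟨z, h⟩ else 0) (by
      intro z hz
      have h2 := congrFun hφ ⟨z, hz⟩
      have h3 : (d : ℝ) * φ ⟨z, hz⟩ - φ ⟨f z, hf z hz⟩ = 0 := h2
      rw [dif_pos hz, dif_pos (hf z hz)]
      linarith)
    funext z
    have h2 := h1 z.1 z.2
    rw [dif_pos z.2] at h2
    exact h2
  obtain ⟨φ, hφ⟩ := (LinearMap.injective_iff_surjective.mp hinj) fun z => g z.1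
  refine ⟨fun z => if h : z ∈ P then φ ⟨z, h⟩ else 0, fun z hz => ?_⟩
  have h2 := congrFun hφ ⟨z, hz⟩
  have h3 : (d : ℝ) * φ ⟨z, hz⟩ - φ ⟨f z, hf z hz⟩ = g z := h2
  beta_reduce
  rw [dif_pos hz, dif_pos (hf z hz)]
  linarith

variable [DecidableEq K]

lemma LD.GG_colour {Q : PlaceData k K} {v : Q.Pl} {d : ℕ} (hd : 2 ≤ d) {P : Finset K} {a : K → ℝ}
    {ρ : ℝ} (L : LD Q v d P a ρ) (hR : 1 ≤ L.R) : ∃ χ : K → Fin (q₀ d), ∀ x ∈ P, ∀ y ∈ P,
    x ≠ y → χ x = χ y → 0 < GG Q v a ρ x y := by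
  obtain ⟨χ, hχ⟩ := L.hC hR
  refine ⟨χ, fun x hx y hy hxy hc => ?_⟩
  have hRR : (1 : ℝ) ≤ L.R := by exact_mod_cast hR
  have h1 := hχ x hx y hy hxy hc
  have h2 := hχ y hy x hx hxy.symm hc.symm
  have e1' : (L.o x y : ℝ) = Q.ord v (lc L.μ L.lam L.ν x - lc L.μ L.lam L.ν y) := by
    exact_mod_cast L.o_ord hx hy hxy
  have e2' : (L.o y x : ℝ) = Q.ord v (lc L.μ L.lam L.ν y - lc L.μ L.lam L.ν x) := by
    exact_mod_cast L.o_ord hy hx hxy.symm
  rw [← e1'] at h1
  rw [← e2', L.o_symm] at h2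
  rw [L.GG_eq hx hy hxy]
  have hdR : (2 : ℝ) ≤ d := by exact_mod_cast hd
  have h4 : (0 : ℝ) < (L.R : ℝ) / (8 * d * (d + 1)) := by positivity
  linarith

end Pool.Agent.V7H78.RP.UH
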