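import Pool.Agent.V7H78.RP.UG.B3

/-!
# The refined determinant lemma
-/

namespace Pool.Agent.V7H78.RP.UH

open Pool.Agent.V7H78.RP.UB Pool.Agent.V7H78.RP.UG Finset

lemma card_sum_le (n : ℕ) : ∀ s : Finset ℕ, s.card = n → n * (n - 1) ≤ 2 * ∑ x ∈ s, x := by
  induction n with
  | zero => intro s _; simp
  | succ n ih =>
    intro s hs
    have hne : s.Nonempty := Finset.card_pos.mp (by omega)
    obtain ⟨q, hq, hmax⟩ := Finset.exists_max_image s id hne
    have h1 : s ⊆ Finset.range (q + 1) := by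
      intro x hx
      have := hmax x hx
      simp only [id] at this
      rw [Finset.mem_range]
      omega
    have h2 := Finset.card_le_card h1
    rw [Finset.card_range, hs] at h2
    have h3 := ih (s.erase q) (by rw [Finset.card_erase_of_mem hq, hs]; rfl)
    rw [← Finset.add_sum_erase _ _ hq]
    rcases n with _ | n
    · simp
    · have e1 : (n + 1 + 1) * (n + 1 + 1 - 1) = (n + 1) * (n + 1 - 1) + 2 * (n + 1) := by
        simp only [Nat.add_sub_cancel]
        ring
      rw [e1]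
      omega

lemma sum_fst_ge {I : Type*} [Fintype I] (ν : I → ℕ × Bool) (h : Function.Injective ν) :
    ((Fintype.card I : ℤ) - BB ν) * ((Fintype.card I : ℤ) - BB ν - 1) + BB ν * (BB ν - 1) ≤
      2 * ∑ j, ((ν j).1 : ℤ) := by
  classical
  set s : Bool → Finset I := fun b => Finset.univ.filter fun j => (ν j).2 = b with hs
  have hB : BB ν = (s true).card := by
    unfold BB
    rw [Finset.card_filter]
    push_cast
    apply Finset.sum_congr rfl
    intro j _
    cases (ν j).2 <;> simp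
  have hc : (Fintype.card I : ℤ) = (s true).card + (s false).card := by
    have h1 : Fintype.card I = (s true).card + (s false).card := by
      rw [← Finset.card_univ, ← Finset.card_filter_add_card_filter_not (fun j => (ν j).2 = true)]
      congr 2
      ext j
      simp [hs]
    exact_mod_cast h1
  have key : ∀ b, ((s b).card : ℤ) * ((s b).card - 1) ≤ 2 * ∑ j ∈ s b, ((ν j).1 : ℤ) := by
    intro b
    have hinj : Set.InjOn (fun j => (ν j).1) (s b : Set I) := by
      intro i hi j hj hij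
      simp only [hs, Finset.coe_filter, Set.mem_ofPred_eq, Finset.mem_univ, true_and] at hi hj
      exact h (Prod.ext hij (hi.trans hj.symm))
    have h1 := card_sum_le (s b).card ((s b).image fun j => (ν j).1)
      (Finset.card_image_of_injOn hinj)
    rw [Finset.sum_image hinj] at h1
    have h2 : (((s b).card * ((s b).card - 1) : ℕ) : ℤ) ≤
        ((2 * ∑ j ∈ s b, (ν j).1 : ℕ) : ℤ) := by exact_mod_cast h1
    push_cast at h2
    rcases Nat.eq_zero_or_pos (s b).card with h0 | h0
    · rw [h0] at h2 ⊢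
      simp only [Nat.cast_zero, zero_mul] at h2 ⊢
      exact h2
    · rw [Nat.cast_sub h0] at h2
      push_cast at h2
      exact h2
  have hsum : ∑ j, ((ν j).1 : ℤ) = ∑ j ∈ s true, ((ν j).1 : ℤ) + ∑ j ∈ s false, ((ν j).1 : ℤ) := by
    rw [← Finset.sum_filter_add_sum_filter_not Finset.univ (fun j => (ν j).2 = true)]
    congr 1
    apply Finset.sum_congr _ fun _ _ => rfl
    ext j
    simp [hs]
  have k1 := key true
  have k2 := key false
  rw [hsum, hB, hc]
  have e1 : ((s true).card : ℤ) + (s false).card - (s true).card = (s false).card := by ring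
  rw [e1]
  linarith

lemma arith1 (b u : ℤ) (hu : 0 ≤ u) (h : b ^ 2 < 4 * u) : -4 ≤ (b - 2 * u) ^ 2 - 4 * u := by
  by_cases h4 : 4 ≤ u
  · have h1 : b < u := by nlinarith
    nlinarith
  · have h3 : u ≤ 3 := by omega
    have hb1 : b ≤ 3 := by nlinarith
    have hb2 : -3 ≤ b := by nlinarith
    interval_cases u <;> interval_cases b <;> omega

/-- The key inequality between the weights. -/
lemma arith2 (r s s₂ c X₁ X₂ : ℤ) (hr : 1 ≤ r) (hc : c ≤ s₂)
    (hA : (s - s₂) * (s - s₂ - 1) + s₂ * (s₂ - 1) ≤ 2 * X₁)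
    (hB : (s - c) * (s - c - 1) + c * (c - 1) ≤ 2 * X₂) (h1 : X₁ ≤ X₂)
    (h2 : X₂ - X₁ ≤ s₂ - c) :
    r * (s ^ 2 - 1) - 4 ≤ 4 * ((r - 1) * X₂ + X₁ + r * c) := by
  by_cases hb : (2 * s₂ + 1 - s) ^ 2 < 4 * (s₂ - c)
  · have h3 := arith1 (2 * s₂ + 1 - s) (s₂ - c) (by omega) hb
    have e1 : 2 * s₂ + 1 - s - 2 * (s₂ - c) = 2 * c + 1 - s := by ring
    rw [e1] at h3
    have h4 : r * (s ^ 2 - 1 + (2 * c + 1 - s) ^ 2) ≤ 4 * (r * X₂ + r * c) := by
      have : s ^ 2 - 1 + (2 * c + 1 - s) ^ 2 ≤ 4 * (X₂ + c) := by nlinarith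
      nlinarith
    have h5 : (2 * c + 1 - s) ^ 2 ≤ r * (2 * c + 1 - s) ^ 2 := by
      nlinarith [sq_nonneg (2 * c + 1 - s)]
    have e2 : r * (s ^ 2 - 1 + (2 * c + 1 - s) ^ 2) =
        r * (s ^ 2 - 1) + r * (2 * c + 1 - s) ^ 2 := by ring
    have e3 : 4 * ((r - 1) * X₂ + X₁ + r * c) = 4 * (r * X₂ + r * c) - 4 * (X₂ - X₁) := by ring
    rw [e3]
    linarith
  · have h3 : s ^ 2 - 1 ≤ 4 * (X₁ + c) := by nlinarith
    have h4 : r * (s ^ 2 - 1) ≤ 4 * (r * X₁ + r * c) := by nlinarith
    have h5 : (r - 1) * X₁ ≤ (r - 1) * X₂ := by nlinarith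
    have e3 : 4 * ((r - 1) * X₁ + X₁ + r * c) = 4 * (r * X₁ + r * c) := by ring
    linarith

/-- first element of a class -/
def Rep {I : Type*} (rk : I → ℕ) (o : I → I → ℕ) (s : ℕ) (i : I) : Prop :=
  (∃ j, j ≠ i ∧ s ≤ o i j) ∧ ∀ j, j ≠ i → s ≤ o i j → rk i < rk j

/-- having a neighbour -/
def Nb {I : Type*} (o : I → I → ℕ) (T : ℕ) (i : I) : Prop := ∃ j, j ≠ i ∧ T ≤ o i j

open Classical in
/-- number of classes of depth `s` with at least two points -/
noncomputable def cls {I : Type*} [Fintype I] (rk : I → ℕ) (o : I → I → ℕ) (s : ℕ) : ℕ :=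
  (Finset.univ.filter fun i => Rep rk o s i).card

open Classical in
/-- number of points with a close point at depth `T` -/
noncomputable def crd {I : Type*} [Fintype I] (o : I → I → ℕ) (T : ℕ) : ℕ :=
  (Finset.univ.filter fun i => Nb o T i).card

/-- the loss -/
noncomputable def LL {I : Type*} [Fintype I] (rk : I → ℕ) (o : I → I → ℕ) (T : ℕ) : ℕ :=
  ∑ s ∈ Finset.Icc 1 T, cls rk o s + crd o T

open Classical in
lemma card_sub_add {I : Type*} [Fintype I] (p : I → Prop) [DecidablePred p]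
    (A : I → Prop) (B : {i // p i} → Prop)
    (C : {i // ¬ p i} → Prop) (hB : ∀ i, B i → A i.1) (hC : ∀ i, C i → A i.1) :
    (Finset.univ.filter B).card + (Finset.univ.filter C).card ≤
      (Finset.univ.filter A).card := by
  rw [← Finset.card_map (Function.Embedding.subtype p),
    ← Finset.card_map (Function.Embedding.subtype fun i => ¬ p i) (s := Finset.univ.filter C),
    ← Finset.card_union_of_disjoint]
  · apply Finset.card_le_card
    intro i hi
    rw [Finset.mem_union, Finset.mem_map, Finset.mem_map] at hi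
    rw [Finset.mem_filter]
    rcases hi with ⟨j, hj, rfl⟩ | ⟨j, hj, rfl⟩
    · exact ⟨Finset.mem_univ _, hB j (Finset.mem_filter.mp hj).2⟩
    · exact ⟨Finset.mem_univ _, hC j (Finset.mem_filter.mp hj).2⟩
  · rw [Finset.disjoint_left]
    intro i hi hi'
    rw [Finset.mem_map] at hi hi'
    obtain ⟨j, _, rfl⟩ := hi
    obtain ⟨j', _, hjj⟩ := hi'
    apply j'.2
    have : j'.1 = j.1 := hjj
    rw [this]
    exact j.2

open Classical in
lemma LL_split {I : Type*} [Fintype I] (p : I → Prop) [DecidablePred p] (rk : I → ℕ)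
    (o : I → I → ℕ) (T : ℕ) (hcross : ∀ i j, p i → ¬ p j → o i j = 0 ∧ o j i = 0) :
    LL (fun i : {i // p i} => rk i.1) (fun i j => o i.1 j.1) T +
      LL (fun i : {i // ¬ p i} => rk i.1) (fun i j => o i.1 j.1) T ≤ LL rk o T := by
  have h1 : ∀ s ∈ Finset.Icc 1 T, cls (fun i : {i // p i} => rk i.1) (fun i j => o i.1 j.1) s +
      cls (fun i : {i // ¬ p i} => rk i.1) (fun i j => o i.1 j.1) s ≤ cls rk o s := by
    intro s hs
    rw [Finset.mem_Icc] at hs
    refine card_sub_add p (fun i => Rep rk o s i)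
      (fun i : {i // p i} => Rep (fun i : {i // p i} => rk i.1) (fun i j => o i.1 j.1) s i)
      (fun i : {i // ¬ p i} => Rep (fun i : {i // ¬ p i} => rk i.1) (fun i j => o i.1 j.1) s i)
      ?_ ?_
    · rintro i ⟨⟨j, hji, hj⟩, hall⟩
      refine ⟨⟨j.1, fun h => hji (Subtype.ext h), hj⟩, ?_⟩
      intro j' hj' hs'
      by_cases hp : p j'
      · exact hall ⟨j', hp⟩ (fun h => hj' (congrArg Subtype.val h)) hs'
      · rw [(hcross _ _ i.2 hp).1] at hs'
        omega
    · rintro i ⟨⟨j, hji, hj⟩, hall⟩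
      refine ⟨⟨j.1, fun h => hji (Subtype.ext h), hj⟩, ?_⟩
      intro j' hj' hs'
      by_cases hp : p j'
      · rw [(hcross _ _ hp i.2).2] at hs'
        omega
      · exact hall ⟨j', hp⟩ (fun h => hj' (congrArg Subtype.val h)) hs'
  have h2 : crd (fun i j : {i // p i} => o i.1 j.1) T +
      crd (fun i j : {i // ¬ p i} => o i.1 j.1) T ≤ crd o T := by
    refine card_sub_add p (fun i => Nb o T i)
      (fun i : {i // p i} => Nb (fun i j : {i // p i} => o i.1 j.1) T i)
      (fun i : {i // ¬ p i} => Nb (fun i j : {i // ¬ p i} => o i.1 j.1) T i) ?_ ?_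
    · rintro i ⟨j, hji, hj⟩
      exact ⟨j.1, fun h => hji (Subtype.ext h), hj⟩
    · rintro i ⟨j, hji, hj⟩
      exact ⟨j.1, fun h => hji (Subtype.ext h), hj⟩
  unfold LL
  have h3 := Finset.sum_le_sum h1
  rw [Finset.sum_add_distrib] at h3
  omega

lemma LL_rescale {I : Type*} [Fintype I] (rk : I → ℕ) (hrk : Function.Injective rk)
    (o : I → I → ℕ) (T r : ℕ) (hr : 1 ≤ r) (hT : 1 ≤ T) (i₀ j₀ : I) (hij : i₀ ≠ j₀)
    (hmin : ∀ i j, i ≠ j → r ≤ o i j) :
    LL rk (fun i j => o i j - r) (T - r) + 1 ≤ LL rk o T := by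
  classical
  have hone : ∀ s, s ≤ r → 1 ≤ cls rk o s := by
    intro s hs
    obtain ⟨im, _, him⟩ := Finset.exists_min_image (Finset.univ : Finset I) rk
      ⟨i₀, Finset.mem_univ _⟩
    apply Finset.card_pos.mpr
    refine ⟨im, Finset.mem_filter.mpr ⟨Finset.mem_univ _, ?_, ?_⟩⟩
    · by_cases h : im = i₀
      · exact ⟨j₀, by rw [h]; exact hij.symm, hs.trans (hmin _ _ (by rw [h]; exact hij))⟩
      · exact ⟨i₀, fun h' => h h'.symm, hs.trans (hmin _ _ h)⟩
    · intro j hj _
      have h1 := him j (Finset.mem_univ _)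
      rcases h1.lt_or_eq with h2 | h2
      · exact h2
      · exact absurd (hrk h2).symm hj
  have hshift : ∀ s, 1 ≤ s → cls rk (fun i j => o i j - r) s = cls rk o (s + r) := by
    intro s hs
    unfold cls
    congr 1
    ext i
    simp only [Finset.mem_filter, Finset.mem_univ, true_and]
    have hiff : ∀ j, j ≠ i → (s ≤ o i j - r ↔ s + r ≤ o i j) := by
      intro j hj
      have := hmin i j (Ne.symm hj)
      omega
    constructor
    · rintro ⟨⟨j, hj, hs'⟩, hall⟩
      exact ⟨⟨j, hj, (hiff j hj).mp hs'⟩, fun j hj hs' => hall j hj ((hiff j hj).mpr hs')⟩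
    · rintro ⟨⟨j, hj, hs'⟩, hall⟩
      exact ⟨⟨j, hj, (hiff j hj).mpr hs'⟩, fun j hj hs' => hall j hj ((hiff j hj).mp hs')⟩
  have hcrd : crd (fun i j => o i j - r) (T - r) ≤ crd o T := by
    apply Finset.card_le_card
    intro i hi
    rw [Finset.mem_filter] at hi ⊢
    obtain ⟨_, j, hj, h⟩ := hi
    refine ⟨Finset.mem_univ _, j, hj, ?_⟩
    have h' : T - r ≤ o i j - r := h
    have := hmin i j (Ne.symm hj)
    omega
  have hsum : ∑ s ∈ Finset.Icc 1 (T - r), cls rk (fun i j => o i j - r) s + 1 ≤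
      ∑ s ∈ Finset.Icc 1 T, cls rk o s := by
    have h1 : ∑ s ∈ Finset.Icc 1 (T - r), cls rk (fun i j => o i j - r) s =
        ∑ s ∈ (Finset.Icc 1 (T - r)).map (addRightEmbedding r), cls rk o s := by
      rw [Finset.sum_map]
      apply Finset.sum_congr rfl
      intro s hs
      rw [Finset.mem_Icc] at hs
      exact hshift s hs.1
    rw [h1]
    have h2 : (Finset.Icc 1 (T - r)).map (addRightEmbedding r) ⊆ (Finset.Icc 1 T).erase 1 := by
      intro s hs
      rw [Finset.mem_map] at hs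
      obtain ⟨s', hs', rfl⟩ := hs
      rw [Finset.mem_Icc] at hs'
      rw [Finset.mem_erase, Finset.mem_Icc]
      simp only [addRightEmbedding_apply]
      omega
    have h3 : (1 : ℕ) ∈ Finset.Icc 1 T := by
      rw [Finset.mem_Icc]
      omega
    rw [← Finset.add_sum_erase _ _ h3, add_comm]
    exact Nat.add_le_add (hone 1 hr) (Finset.sum_le_sum_of_subset h2)
  unfold LL
  omega

end Pool.Agent.V7H78.RP.UH
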