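import Pool.Agent.V7H78.RP.UH.H1

/-!
# The refined determinant lemma (induction)
-/

namespace Pool.Agent.V7H78.RP.UH

open Pool.Agent.V7H78.RP.UB Pool.Agent.V7H78.RP.UG Finset

variable {k K : Type*} [Field k] [Field K] [Algebra k K] {Q : PlaceData k K} {v : Q.Pl}

/-- The splitting step. -/
lemma split_stepL {I : Type*} [Fintype I] [DecidableEq I] (x w : I → K) (o : I → I → ℕ) (ℓ : ℤ)
    (rk : I → ℕ) (p : I → Prop) [DecidablePred p] (L1 L2 : ℤ)
    (hcross : ∀ i j, p i → ¬ p j → o i j = 0 ∧ o j i = 0)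
    (h1 : ∀ μ : {i // p i} → ℕ × Bool, Function.Injective μ →
      G4 Q v (EE (fun i j : {i // p i} => o i.1 j.1) +
        MM (fun i : {i // p i} => rk i.1) (fun i j => o i.1 j.1) - L1 - 4 * ℓ * BB μ)
        (mat (fun i : {i // p i} => x i.1) (fun i => w i.1) μ).det)
    (h2 : ∀ μ : {i // ¬ p i} → ℕ × Bool, Function.Injective μ →
      G4 Q v (EE (fun i j : {i // ¬ p i} => o i.1 j.1) +
        MM (fun i : {i // ¬ p i} => rk i.1) (fun i j => o i.1 j.1) - L2 - 4 * ℓ * BB μ)
        (mat (fun i : {i // ¬ p i} => x i.1) (fun i => w i.1) μ).det)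
    (μ : I → ℕ × Bool) (hμ : Function.Injective μ) :
    G4 Q v (EE o + MM rk o - (L1 + L2) - 4 * ℓ * BB μ) (mat x w μ).det := by
  classical
  rw [det_split (mat x w μ) p]
  apply G4_sum
  intro ε _
  by_cases hσ : ∃ σ : Equiv.Perm I, ∀ j, p (σ j) ↔ ε j = true
  · obtain ⟨σ, hσ⟩ := hσ
    set N : Matrix I I K := Matrix.of fun j i =>
      if (p i ↔ ε j = true) then mat x w μ j i else 0 with hN
    set N' : Matrix I I K := Matrix.of fun j i => N (σ.symm j) i with hN'
    have hdet : N'.det = Equiv.Perm.sign σ.symm * N.det := Matrix.det_permute σ.symm N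
    have hN'e : ∀ j i, N' j i = if (p i ↔ p j) then mat x w (μ ∘ σ.symm) j i else 0 := by
      intro j i
      have h3 := hσ (σ.symm j)
      rw [Equiv.apply_symm_apply] at h3
      simp only [hN', hN, Matrix.of_apply, ← h3, mat, Function.comp_apply]
    have hblock := Matrix.twoBlockTriangular_det N' p (by
      intro i hi j hj
      rw [hN'e, if_neg]
      intro h
      exact hi (h.mp hj))
    have hb1 : Matrix.toSquareBlockProp N' p =
        mat (fun i : {i // p i} => x i.1) (fun i => w i.1) (fun i => (μ ∘ σ.symm) i.1) := by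
      ext ⟨j, hj⟩ ⟨i, hi⟩
      show N' j i = mat x w (μ ∘ σ.symm) j i
      rw [hN'e, if_pos (by simp [hi, hj])]
    have hb2 : Matrix.toSquareBlockProp N' (fun i => ¬ p i) =
        mat (fun i : {i // ¬ p i} => x i.1) (fun i => w i.1) (fun i => (μ ∘ σ.symm) i.1) := by
      ext ⟨j, hj⟩ ⟨i, hi⟩
      show N' j i = mat x w (μ ∘ σ.symm) j i
      rw [hN'e, if_pos (by simp [hi, hj])]
    have hinj : Function.Injective (μ ∘ σ.symm) := hμ.comp σ.symm.injective
    have g1 := h1 (fun i => (μ ∘ σ.symm) i.1) (fun a b hab => Subtype.ext (hinj hab))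
    have g2 := h2 (fun i => (μ ∘ σ.symm) i.1) (fun a b hab => Subtype.ext (hinj hab))
    rw [hblock, hb1, hb2] at hdet
    intro hz
    have hz' : N.det ≠ 0 := hz
    have hsign : ((Equiv.Perm.sign σ.symm : ℤ) : K) ≠ 0 := by
      rcases Int.units_eq_one_or (Equiv.Perm.sign σ.symm) with h3 | h3 <;> rw [h3] <;> simp
    have hsord : Q.ord v ((Equiv.Perm.sign σ.symm : ℤ) : K) = 0 := by
      rcases Int.units_eq_one_or (Equiv.Perm.sign σ.symm) with h3 | h3
      · rw [h3]
        simpa using PlaceData.ord_one (Q := Q) (v := v)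
      · rw [h3]
        have := PlaceData.ord_neg (Q := Q) (v := v) (one_ne_zero (α := K))
        rw [PlaceData.ord_one] at this
        simpa using this
    have hprod : (mat (fun i : {i // p i} => x i.1) (fun i => w i.1)
        (fun i => (μ ∘ σ.symm) i.1)).det *
        (mat (fun i : {i // ¬ p i} => x i.1) (fun i => w i.1)
        (fun i => (μ ∘ σ.symm) i.1)).det ≠ 0 := by
      rw [hdet]
      exact mul_ne_zero hsign hz'
    have e1 := left_ne_zero_of_mul hprod
    have e2 := right_ne_zero_of_mul hprod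
    have e3 := congrArg (Q.ord v) hdet
    rw [Q.ord_mul v _ _ e1 e2, Q.ord_mul v _ _ hsign hz', hsord, zero_add] at e3
    have f1 := g1 e1
    have f2 := g2 e2
    -- sums
    have hBB : BB (fun i : {i // p i} => (μ ∘ σ.symm) i.1) +
        BB (fun i : {i // ¬ p i} => (μ ∘ σ.symm) i.1) = BB μ := by
      unfold BB
      rw [Fintype.sum_subtype_add_sum_subtype p (fun j => (((μ ∘ σ.symm) j).2.toNat : ℤ))]
      exact Equiv.sum_comp σ.symm fun j => ((μ j).2.toNat : ℤ)
    have hEE : EE o ≤ EE (fun i j : {i // p i} => o i.1 j.1) +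
        EE (fun i j : {i // ¬ p i} => o i.1 j.1) := by
      unfold EE
      rw [← Fintype.sum_subtype_add_sum_subtype p (fun i => ∑ j, o i j)]
      apply add_le_add
      · apply Finset.sum_le_sum
        intro i _
        rw [← Fintype.sum_subtype_add_sum_subtype p (fun j => o i.1 j)]
        have : ∑ j : {i // ¬ p i}, o i.1 j.1 = 0 :=
          Finset.sum_eq_zero fun j _ => (hcross _ _ i.2 j.2).1
        rw [this, add_zero]
      · apply Finset.sum_le_sum
        intro i _
        rw [← Fintype.sum_subtype_add_sum_subtype p (fun j => o i.1 j)]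
        have : ∑ j : {i // p i}, o i.1 j.1 = 0 :=
          Finset.sum_eq_zero fun j _ => (hcross _ _ j.2 i.2).2
        rw [this, zero_add]
    have hMM : MM rk o ≤ MM (fun i : {i // p i} => rk i.1) (fun i j => o i.1 j.1) +
        MM (fun i : {i // ¬ p i} => rk i.1) (fun i j => o i.1 j.1) := by
      unfold MM
      rw [← Fintype.sum_subtype_add_sum_subtype p
        (fun i => (Finset.univ.filter fun j => rk j < rk i).sup (o i))]
      apply add_le_add
      · apply Finset.sum_le_sum
        intro i _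
        apply Finset.sup_le
        intro j hj
        rw [Finset.mem_filter] at hj
        by_cases hpj : p j
        · exact Finset.le_sup (f := fun j : {i // p i} => o i.1 j.1) (b := ⟨j, hpj⟩)
            (Finset.mem_filter.mpr ⟨Finset.mem_univ _, hj.2⟩)
        · rw [(hcross _ _ i.2 hpj).1]
          exact Nat.zero_le _
      · apply Finset.sum_le_sum
        intro i _
        apply Finset.sup_le
        intro j hj
        rw [Finset.mem_filter] at hj
        by_cases hpj : p j
        · rw [(hcross _ _ hpj i.2).2]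
          exact Nat.zero_le _
        · exact Finset.le_sup (f := fun j : {i // ¬ p i} => o i.1 j.1) (b := ⟨j, hpj⟩)
            (Finset.mem_filter.mpr ⟨Finset.mem_univ _, hj.2⟩)
    have hEE' : (EE o : ℤ) ≤ EE (fun i j : {i // p i} => o i.1 j.1) +
        EE (fun i j : {i // ¬ p i} => o i.1 j.1) := by exact_mod_cast hEE
    have hMM' : (MM rk o : ℤ) ≤ MM (fun i : {i // p i} => rk i.1) (fun i j => o i.1 j.1) +
        MM (fun i : {i // ¬ p i} => rk i.1) (fun i j => o i.1 j.1) := by exact_mod_cast hMM
    show (EE o : ℤ) + MM rk o - (L1 + L2) - 4 * ℓ * BB μ ≤ 4 * Q.ord v N.det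
    rw [← hBB, ← e3]
    have : 4 * ℓ * (BB (fun i : {i // p i} => (μ ∘ σ.symm) i.1) +
        BB (fun i : {i // ¬ p i} => (μ ∘ σ.symm) i.1)) =
        4 * ℓ * BB (fun i : {i // p i} => (μ ∘ σ.symm) i.1) +
        4 * ℓ * BB (fun i : {i // ¬ p i} => (μ ∘ σ.symm) i.1) := by ring
    rw [this]
    linarith
  · -- the determinant vanishes
    intro hz
    exfalso
    apply hz
    rw [Matrix.det_apply]
    apply Finset.sum_eq_zero
    intro σ _
    have h3 : ∃ i, ¬ (p i ↔ ε (σ i) = true) := by
      by_contra hcon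
      push Not at hcon
      apply hσ
      refine ⟨σ.symm, fun j => ?_⟩
      have := hcon (σ.symm j)
      rw [Equiv.apply_symm_apply] at this
      exact this
    obtain ⟨i, hi⟩ := h3
    have : ∏ i, (Matrix.of fun j i => if (p i ↔ ε j = true) then mat x w μ j i else 0) (σ i) i =
        0 := by
      apply Finset.prod_eq_zero (Finset.mem_univ i)
      rw [Matrix.of_apply, if_neg hi]
    rw [this, smul_zero]


lemma EE_rescale {I : Type*} [Fintype I] [DecidableEq I] (o : I → I → ℕ) (r : ℕ)
    (hoii : ∀ i, o i i = 0) (hmin : ∀ i j, i ≠ j → r ≤ o i j) :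
    (EE o : ℤ) ≤ EE (fun i j => o i j - r) +
      (r : ℤ) * ((Fintype.card I : ℤ) ^ 2 - Fintype.card I) := by
  have h1 : ∀ i j, (o i j : ℤ) ≤ ((o i j - r : ℕ) : ℤ) +
      ((r : ℤ) - if i = j then (r : ℤ) else 0) := by
    intro i j
    by_cases hij' : i = j
    · rw [if_pos hij', hij', hoii j]
      simp
    · rw [if_neg hij']
      have := hmin i j hij'
      omega
  unfold EE
  push_cast
  calc ∑ i, ∑ j, (o i j : ℤ) ≤ ∑ i, ∑ j, (((o i j - r : ℕ) : ℤ) +
      ((r : ℤ) - if i = j then (r : ℤ) else 0)) :=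
        Finset.sum_le_sum fun i _ => Finset.sum_le_sum fun j _ => h1 i j
    _ = _ := by
        simp only [Finset.sum_add_distrib, Finset.sum_sub_distrib, Finset.sum_const,
          Finset.sum_ite_eq, Finset.mem_univ, if_true, Finset.card_univ, nsmul_eq_mul]
        ring

lemma MM_rescale {I : Type*} [Fintype I] [DecidableEq I] [Nonempty I] (rk : I → ℕ)
    (o : I → I → ℕ) (r : ℕ) (hmin : ∀ i j, i ≠ j → r ≤ o i j) :
    (MM rk o : ℤ) ≤ MM rk (fun i j => o i j - r) + (r : ℤ) * ((Fintype.card I : ℤ) - 1) := by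
  classical
  obtain ⟨im, _, him⟩ := Finset.exists_min_image (Finset.univ : Finset I) rk
    ⟨Classical.arbitrary I, Finset.mem_univ _⟩
  have h1 : ∀ i, ((Finset.univ.filter fun j => rk j < rk i).sup (o i) : ℕ) ≤
      (Finset.univ.filter fun j => rk j < rk i).sup (fun j => o i j - r) +
      (r - if i = im then r else 0) := by
    intro i
    apply Finset.sup_le
    intro j hj
    have hj' := hj
    rw [Finset.mem_filter] at hj'
    have hne : i ≠ im := by
      intro he
      have := him j (Finset.mem_univ _)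
      rw [← he] at this
      omega
    rw [if_neg hne]
    have h2 : o i j - r ≤ _ := Finset.le_sup (f := fun j => o i j - r) hj
    omega
  have h1' : ∀ i, (((Finset.univ.filter fun j => rk j < rk i).sup (o i) : ℕ) : ℤ) ≤
      (((Finset.univ.filter fun j => rk j < rk i).sup (fun j => o i j - r) : ℕ) : ℤ) +
      ((r : ℤ) - if i = im then (r : ℤ) else 0) := by
    intro i
    have := h1 i
    by_cases he : i = im
    · rw [if_pos he] at this ⊢
      omega
    · rw [if_neg he] at this ⊢
      omega
  unfold MM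
  push_cast
  calc ∑ i, (((Finset.univ.filter fun j => rk j < rk i).sup (o i) : ℕ) : ℤ) ≤
      ∑ i, ((((Finset.univ.filter fun j => rk j < rk i).sup (fun j => o i j - r) : ℕ) : ℤ)
        + ((r : ℤ) - if i = im then (r : ℤ) else 0)) :=
        Finset.sum_le_sum fun i _ => h1' i
    _ = _ := by
        simp only [Finset.sum_add_distrib, Finset.sum_sub_distrib, Finset.sum_const,
          Finset.sum_ite_eq', Finset.mem_univ, if_true, Finset.card_univ, nsmul_eq_mul]
        ring

/-- A configuration of integral points. -/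
structure Cf (Q : PlaceData k K) (v : Q.Pl) {I : Type*} (x : I → K) (o : I → I → ℕ) : Prop where
  oii : ∀ i, o i i = 0
  ne : ∀ i j, i ≠ j → x i ≠ x j
  ordo : ∀ i j, i ≠ j → Q.ord v (x i - x j) = o i j
  hx : ∀ i, Q.G v 0 (x i)

lemma Cf.toConf {I : Type*} {x : I → K} {o : I → I → ℕ} (h : Cf Q v x o) :
    Conf Q v x (fun i => Q.D (x i)) o (Q.loss v + 1) where
  oii := h.oii
  ne := h.ne
  ordo := h.ordo
  hx := h.hx
  hw := by
    intro i
    have := PlaceData.G_D' 1 (h.hx i)
    refine PlaceData.G_mono this ?_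
    push_cast
    omega
  hww := by
    intro i j hij
    have h1 : Q.D (x i) - Q.D (x j) = Q.D (x i - x j) := by rw [map_sub]
    rw [h1]
    have := PlaceData.G_D 1 (x := x i - x j) (m := (o i j : ℤ)) (fun _ => (h.ordo i j hij).ge)
    refine PlaceData.G_mono this (le_of_eq ?_)
    push_cast
    ring

lemma Cf.sub {I : Type*} {x : I → K} {o : I → I → ℕ} (h : Cf Q v x o)
    {p : I → Prop} : Cf Q v (fun i : {i // p i} => x i.1) (fun i j => o i.1 j.1) where
  oii := fun i => h.oii i.1
  ne := fun _ _ hij => h.ne _ _ fun h' => hij (Subtype.ext h')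
  ordo := fun _ _ hij => h.ordo _ _ fun h' => hij (Subtype.ext h')
  hx := fun i => h.hx i.1

lemma Cf.rescale {I : Type*} {x : I → K} {o : I → I → ℕ} (h : Cf Q v x o)
    (i₀ j₀ : I) (hij : i₀ ≠ j₀) (hmin : ∀ i j, i ≠ j → o i₀ j₀ ≤ o i j) :
    Cf Q v (fun i => (x i - x i₀) / (x i₀ - x j₀)) (fun i j => o i j - o i₀ j₀) := by
  have h1 := h.toConf.rescale i₀ j₀ hij hmin
  exact ⟨h1.oii, h1.ne, h1.ordo, h1.hx⟩

/-- stage one coefficients -/
def c1 (x₀ τ : K) (a q : ℕ × Bool) : K := (a.1.choose q.1 : K) * x₀ ^ (a.1 - q.1) * τ ^ q.1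

/-- stage two coefficients -/
def c2 (w₀ s τ : K) (a q : ℕ × Bool) : K :=
  if a.2 then (if q.2 then τ else if q.1 = a.1 then w₀ else s) else 1

/-- stage two support -/
def bx2 (a : ℕ × Bool) : Finset (ℕ × Bool) :=
  if a.2 then {(a.1, false), (a.1 + 1, false), (a.1, true)} else {a}

/-- The refined expansion step. -/
lemma expand_ref {I : Type*} [Fintype I] [DecidableEq I] (x : I → K) (o : I → I → ℕ)
    (rk : I → ℕ) (h : Cf Q v x o) (L' : ℤ)
    (i₀ j₀ : I) (hij : i₀ ≠ j₀) (hmin : ∀ i j, i ≠ j → o i₀ j₀ ≤ o i j) (hr : 1 ≤ o i₀ j₀)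
    (hy : ∀ ν : I → ℕ × Bool, Function.Injective ν →
      G4 Q v (EE (fun i j => o i j - o i₀ j₀) + MM rk (fun i j => o i j - o i₀ j₀)
        - L' - 4 * Q.loss v * BB ν)
        (mat (fun i => (x i - x i₀) / (x i₀ - x j₀))
          (fun i => Q.D ((x i - x i₀) / (x i₀ - x j₀))) ν).det)
    (μ : I → ℕ × Bool) :
    G4 Q v (EE o + MM rk o - (L' + 4) - 4 * Q.loss v * BB μ)
      (mat x (fun i => Q.D (x i)) μ).det := by
  classical
  haveI : Nonempty I := ⟨i₀⟩
  have hτ : x i₀ - x j₀ ≠ 0 := sub_ne_zero.mpr (h.ne _ _ hij)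
  have hτo : Q.ord v (x i₀ - x j₀) = o i₀ j₀ := h.ordo _ _ hij
  set τ := x i₀ - x j₀ with hτdef
  set r : ℤ := (o i₀ j₀ : ℤ) with hrdef
  set y : I → K := fun i => (x i - x i₀) / τ with hydef
  have hxy : ∀ i, x i = x i₀ + τ * y i := by
    intro i
    simp only [hydef]
    field_simp
    ring
  have hw : ∀ i, Q.D (x i) = Q.D (x i₀) + Q.D τ * y i + τ * Q.D (y i) := by
    intro i
    conv_lhs => rw [hxy i]
    rw [map_add, Derivation.leibniz]
    simp only [smul_eq_mul]
    ring
  -- stage one
  rw [det_expand (fun j => (Finset.range ((μ j).1 + 1)) ×ˢ {(μ j).2})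
    (fun j q => c1 (x i₀) τ (μ j) q)
    (fun q i => y i ^ q.1 * (Q.D (x i)) ^ q.2.toNat) (mat x (fun i => Q.D (x i)) μ) (by
      intro j i
      unfold mat c1
      rw [Matrix.of_apply, Finset.sum_product]
      simp only [Finset.sum_singleton]
      have h1 : (x i) ^ (μ j).1 = ∑ m ∈ Finset.range ((μ j).1 + 1),
          ((μ j).1.choose m : K) * (x i₀) ^ ((μ j).1 - m) * τ ^ m * (y i) ^ m := by
        conv_lhs => rw [hxy i]
        rw [add_comm, add_pow]
        apply Finset.sum_congr rfl
        intro m _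
        rw [mul_pow]
        ring
      rw [h1, Finset.sum_mul]
      apply Finset.sum_congr rfl
      intro m _
      ring)]
  apply G4_sum
  intro ν hν
  rw [Fintype.mem_piFinset] at hν
  have hν2 : ∀ j, (ν j).2 = (μ j).2 := by
    intro j
    have := hν j
    rw [Finset.mem_product] at this
    exact Finset.mem_singleton.mp this.2
  by_cases hνinj : Function.Injective ν
  swap
  · intro hz
    exfalso
    apply right_ne_zero_of_mul hz
    rw [Function.Injective] at hνinj
    push Not at hνinj
    obtain ⟨j, j', hjj, hne⟩ := hνinj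
    apply Matrix.det_zero_of_row_eq hne
    ext i
    simp only [Matrix.of_apply, hjj]
  have hBν : BB ν = BB μ := by
    unfold BB
    apply Finset.sum_congr rfl
    intro j _
    rw [hν2 j]
  -- stage two
  rw [det_expand (fun j => bx2 (ν j)) (fun j q => c2 (Q.D (x i₀)) (Q.D τ) τ (ν j) q)
    (fun q i => y i ^ q.1 * (Q.D (y i)) ^ q.2.toNat)
    (Matrix.of fun j i => y i ^ (ν j).1 * (Q.D (x i)) ^ (ν j).2.toNat) (by
      intro j i
      rw [Matrix.of_apply]
      obtain ⟨⟨a, b⟩, hab⟩ : ∃ q, ν j = q := ⟨_, rfl⟩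
      rw [hab]
      unfold bx2 c2
      cases b
      · simp
      · simp only [if_true]
        rw [Finset.sum_insert (by simp), Finset.sum_insert (by simp), Finset.sum_singleton]
        simp only [Bool.false_eq_true, if_false, if_true, Bool.toNat_true, Bool.toNat_false,
          pow_one, pow_zero, mul_one]
        rw [if_neg (by omega), hw i]
        ring), Finset.mul_sum]
  apply G4_sum
  intro ν' hν'
  rw [Fintype.mem_piFinset] at hν'
  intro hz
  have hz1 := left_ne_zero_of_mul hz
  have hz2 := right_ne_zero_of_mul hz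
  have hz3 := left_ne_zero_of_mul hz2
  have hz4 := right_ne_zero_of_mul hz2
  have hν'inj : Function.Injective ν' := by
    intro j j' hjj
    by_contra hne
    apply hz4
    apply Matrix.det_zero_of_row_eq hne
    ext i
    simp only [Matrix.of_apply, hjj]
  have hGτ : Q.G v r τ := fun _ => hτo.ge
  have g1 : Q.G v (∑ j, r * ((ν j).1 : ℤ)) (∏ j, c1 (x i₀) τ (μ j) (ν j)) := by
    apply PlaceData.G_prod
    intro j _
    unfold c1
    have h1 : Q.G v 0 (((μ j).1.choose (ν j).1 : ℕ) : K) := by
      have := PlaceData.G_alg (Q := Q) (v := v) (((μ j).1.choose (ν j).1 : ℕ) : k)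
      simpa using this
    have h2 : Q.G v 0 ((x i₀) ^ ((μ j).1 - (ν j).1)) := by
      have := PlaceData.G_pow (h.hx i₀) ((μ j).1 - (ν j).1)
      simpa using this
    have h3 : Q.G v ((ν j).1 * r) (τ ^ (ν j).1) := PlaceData.G_pow hGτ _
    refine PlaceData.G_mono (PlaceData.G_mul (PlaceData.G_mul h1 h2) h3) (le_of_eq ?_)
    ring
  have hDx : Q.G v (-Q.loss v) (Q.D (x i₀)) := by
    have := PlaceData.G_D' 1 (h.hx i₀)
    refine PlaceData.G_mono this ?_
    push_cast
    omega
  have hDτ : Q.G v (r - 1 - Q.loss v) (Q.D τ) := by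
    have := PlaceData.G_D 1 hGτ
    refine PlaceData.G_mono this (le_of_eq ?_)
    push_cast
    ring
  have g2 : Q.G v (∑ j, ((r - 1) * (((ν' j).1 : ℤ) - (ν j).1) + r * ((ν' j).2.toNat : ℤ) -
      Q.loss v * (((ν j).2.toNat : ℤ) - (ν' j).2.toNat)))
      (∏ j, c2 (Q.D (x i₀)) (Q.D τ) τ (ν j) (ν' j)) := by
    apply PlaceData.G_prod
    intro j _
    have h1 := hν' j
    obtain ⟨⟨a, b⟩, hab⟩ : ∃ q, ν j = q := ⟨_, rfl⟩
    rw [hab] at h1 ⊢
    unfold bx2 at h1
    unfold c2
    cases b
    · simp only [Bool.false_eq_true, if_false, Finset.mem_singleton] at h1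
      rw [h1]
      simp only [Bool.false_eq_true, if_false, Bool.toNat_false]
      refine PlaceData.G_mono PlaceData.G_one (le_of_eq ?_)
      push_cast
      ring
    · simp only [if_true, Finset.mem_insert, Finset.mem_singleton] at h1
      rcases h1 with h1 | h1 | h1
      · rw [h1]
        simp only [Bool.false_eq_true, if_false, if_true, Bool.toNat_false, Bool.toNat_true]
        refine PlaceData.G_mono hDx (le_of_eq ?_)
        push_cast
        ring
      · rw [h1]
        simp only [Bool.false_eq_true, if_false, if_true, Bool.toNat_false, Bool.toNat_true]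
        rw [if_neg (by omega)]
        refine PlaceData.G_mono hDτ (le_of_eq ?_)
        push_cast
        ring
      · rw [h1]
        simp only [if_true, Bool.toNat_true]
        refine PlaceData.G_mono hGτ (le_of_eq ?_)
        push_cast
        ring
  have g3 := hy ν' hν'inj hz4
  have g1' := g1 hz1
  have g2' := g2 hz3
  rw [Q.ord_mul v _ _ hz1 hz2, Q.ord_mul v _ _ hz3 hz4]
  have hA := sum_fst_ge ν hνinj
  have hB := sum_fst_ge ν' hν'inj
  rw [hBν] at hA
  have hd1 : ∀ j, (ν j).1 ≤ (ν' j).1 ∧ (ν' j).1 + (ν' j).2.toNat ≤ (ν j).1 + (ν j).2.toNat ∧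
      (ν' j).2.toNat ≤ (ν j).2.toNat := by
    intro j
    have h1 := hν' j
    obtain ⟨⟨a, b⟩, hab⟩ : ∃ q, ν j = q := ⟨_, rfl⟩
    rw [hab] at h1 ⊢
    unfold bx2 at h1
    cases b
    · simp only [Bool.false_eq_true, if_false, Finset.mem_singleton] at h1
      rw [h1]
      simp
    · simp only [if_true, Finset.mem_insert, Finset.mem_singleton] at h1
      rcases h1 with h1 | h1 | h1 <;> rw [h1] <;> simp
  have e1 : ∑ j, r * ((ν j).1 : ℤ) = r * ∑ j, ((ν j).1 : ℤ) := (Finset.mul_sum _ _ _).symm
  have e2 : ∑ j, ((r - 1) * (((ν' j).1 : ℤ) - (ν j).1) + r * ((ν' j).2.toNat : ℤ) -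
      Q.loss v * (((ν j).2.toNat : ℤ) - (ν' j).2.toNat)) =
      (r - 1) * (∑ j, ((ν' j).1 : ℤ) - ∑ j, ((ν j).1 : ℤ)) + r * BB ν' -
        Q.loss v * (BB μ - BB ν') := by
    rw [← hBν]
    unfold BB
    rw [Finset.sum_sub_distrib, Finset.sum_add_distrib, ← Finset.mul_sum, ← Finset.mul_sum,
      ← Finset.mul_sum, Finset.sum_sub_distrib, Finset.sum_sub_distrib]
  rw [e1] at g1'
  rw [e2] at g2'
  have hc : BB ν' ≤ BB μ := by
    rw [← hBν]
    unfold BB
    apply Finset.sum_le_sum
    intro j _
    exact_mod_cast (hd1 j).2.2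
  have h1 : ∑ j, ((ν j).1 : ℤ) ≤ ∑ j, ((ν' j).1 : ℤ) := by
    apply Finset.sum_le_sum
    intro j _
    exact_mod_cast (hd1 j).1
  have h2 : ∑ j, ((ν' j).1 : ℤ) - ∑ j, ((ν j).1 : ℤ) ≤ BB μ - BB ν' := by
    have h3 : ∑ j, (((ν' j).1 : ℤ) + ((ν' j).2.toNat : ℤ)) ≤
        ∑ j, (((ν j).1 : ℤ) + ((ν j).2.toNat : ℤ)) := by
      apply Finset.sum_le_sum
      intro j _
      exact_mod_cast (hd1 j).2.1
    rw [Finset.sum_add_distrib, Finset.sum_add_distrib] at h3
    rw [← hBν]
    unfold BB
    linarith
  have hr' : (1 : ℤ) ≤ r := by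
    rw [hrdef]
    exact_mod_cast hr
  have key := arith2 r (Fintype.card I) (BB μ) (BB ν') (∑ j, ((ν j).1 : ℤ)) (∑ j, ((ν' j).1 : ℤ))
    hr' hc hA hB h1 h2
  have hEE := EE_rescale o (o i₀ j₀) h.oii hmin
  have hMM := MM_rescale rk o (o i₀ j₀) hmin
  have e3 : r * ((Fintype.card I : ℤ) ^ 2 - 1) =
      r * ((Fintype.card I : ℤ) ^ 2 - Fintype.card I) + r * ((Fintype.card I : ℤ) - 1) := by ring
  have e4 : 4 * ((r - 1) * ∑ j, ((ν' j).1 : ℤ) + ∑ j, ((ν j).1 : ℤ) + r * BB ν') =
      4 * (r * ∑ j, ((ν j).1 : ℤ) +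
        ((r - 1) * (∑ j, ((ν' j).1 : ℤ) - ∑ j, ((ν j).1 : ℤ)) + r * BB ν')) := by ring
  rw [e4, e3] at key
  have e5 : Q.loss v * (BB μ - BB ν') = Q.loss v * BB μ - Q.loss v * BB ν' := by ring
  rw [e5] at g2'
  have e6 : 4 * Q.loss v * BB μ = 4 * (Q.loss v * BB μ) := by ring
  have e7 : 4 * Q.loss v * BB ν' = 4 * (Q.loss v * BB ν') := by ring
  rw [e6]
  rw [e7] at g3
  have g3' : (EE (fun i j => o i j - o i₀ j₀) : ℤ) + MM rk (fun i j => o i j - o i₀ j₀) - L' -
      4 * (Q.loss v * BB ν') ≤ 4 * Q.ord v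
        (Matrix.of fun j i => y i ^ (ν' j).1 * (Q.D (y i)) ^ (ν' j).2.toNat).det := g3
  linarith

/-- **The refined determinant lemma.** -/
theorem det_ref (n : ℕ) : ∀ (I : Type) [Fintype I] [DecidableEq I], Fintype.card I ≤ n →
    ∀ (x : I → K) (o : I → I → ℕ) (rk : I → ℕ) (T : ℕ), Function.Injective rk →
    Cf Q v x o → ∀ μ : I → ℕ × Bool, Function.Injective μ →
    G4 Q v (EE o + MM rk o - 4 * (LL rk o T : ℤ) - 4 * Q.loss v * BB μ)
      (mat x (fun i => Q.D (x i)) μ).det := by
  induction n with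
  | zero =>
    intro I _ _ hI x o rk T hrk h μ hμ hz
    haveI : IsEmpty I := Fintype.card_eq_zero_iff.mp (Nat.le_zero.mp hI)
    have h1 : (mat x (fun i => Q.D (x i)) μ).det = 1 := Matrix.det_isEmpty
    rw [h1, PlaceData.ord_one]
    unfold EE MM BB
    simp
  | succ n ih =>
    intro I _ _ hI x o rk T hrk h μ hμ
    classical
    by_cases hoff : (Finset.univ : Finset I).offDiag.Nonempty
    · obtain ⟨⟨i₀, j₀⟩, hmem, hmin⟩ := Finset.exists_min_image _ (fun q : I × I => o q.1 q.2) hoff
      rw [Finset.mem_offDiag] at hmem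
      have hij : i₀ ≠ j₀ := hmem.2.2
      have hmin' : ∀ i j, i ≠ j → o i₀ j₀ ≤ o i j := fun i j hne =>
        hmin (i, j) (Finset.mem_offDiag.mpr ⟨Finset.mem_univ _, Finset.mem_univ _, hne⟩)
      -- the splitting step
      have hsplit : ∀ (y : I → K) (o' : I → I → ℕ) (T' : ℕ), Cf Q v y o' → o' i₀ j₀ = 0 →
          ∀ ν : I → ℕ × Bool, Function.Injective ν →
          G4 Q v (EE o' + MM rk o' - 4 * (LL rk o' T' : ℤ) - 4 * Q.loss v * BB ν)
            (mat y (fun i => Q.D (y i)) ν).det := by
        intro y o' T' hC h0 ν hν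
        let p : I → Prop := fun i => i = i₀ ∨ 1 ≤ o' i₀ i
        have hpi : p i₀ := Or.inl rfl
        have hpj : ¬ p j₀ := by
          intro hp
          rcases hp with h1 | h1
          · exact hij h1.symm
          · omega
        have hcross : ∀ i j, p i → ¬ p j → o' i j = 0 ∧ o' j i = 0 := by
          intro i j hi hj
          have hsymm := hC.toConf.symm j i
          rw [hsymm, and_self]
          by_contra hne
          have hij1 : 1 ≤ o' i j := Nat.one_le_iff_ne_zero.mpr hne
          rcases hi with rfl | hi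
          · exact hj (Or.inr hij1)
          · have hji₀ : j ≠ i₀ := fun he => hj (Or.inl he)
            have hij' : i ≠ j := by
              rintro rfl
              exact hj (Or.inr hi)
            by_cases hii₀ : i = i₀
            · subst hii₀
              exact hj (Or.inr hij1)
            · apply hj
              right
              have e1 := hC.ordo i₀ i (Ne.symm hii₀)
              have e2 := hC.ordo i j hij'
              have e3 := hC.ordo i₀ j (Ne.symm hji₀)
              have g1 : Q.G v 1 (y i₀ - y i) := fun _ => by rw [e1]; exact_mod_cast hi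
              have g2 : Q.G v 1 (y i - y j) := fun _ => by rw [e2]; exact_mod_cast hij1
              have g3 := PlaceData.G_add g1 g2
              have g4 : y i₀ - y i + (y i - y j) = y i₀ - y j := by ring
              rw [g4] at g3
              have g5 := g3 (sub_ne_zero.mpr (hC.ne _ _ (Ne.symm hji₀)))
              rw [e3] at g5
              exact_mod_cast g5
        have hc1 : Fintype.card {i // p i} ≤ n := by
          have := Fintype.card_subtype_lt hpj
          omega
        have hc2 : Fintype.card {i // ¬ p i} ≤ n := by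
          have := Fintype.card_subtype_lt (p := fun i => ¬ p i) (x := i₀) (by
            simp only [not_not]
            exact hpi)
          omega
        have h5 := split_stepL y (fun i => Q.D (y i)) o' (Q.loss v) rk p
          (4 * (LL (fun i : {i // p i} => rk i.1) (fun i j => o' i.1 j.1) T' : ℤ))
          (4 * (LL (fun i : {i // ¬ p i} => rk i.1) (fun i j => o' i.1 j.1) T' : ℤ)) hcross
          (fun μ' hμ' => ih {i // p i} hc1 _ _ (fun i => rk i.1) T'
            (fun a b hab => Subtype.ext (hrk hab)) hC.sub μ' hμ')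
          (fun μ' hμ' => ih {i // ¬ p i} hc2 _ _ (fun i => rk i.1) T'
            (fun a b hab => Subtype.ext (hrk hab)) hC.sub μ' hμ') ν hν
        have h6 := LL_split p rk o' T' hcross
        have h6' : (LL (fun i : {i // p i} => rk i.1) (fun i j => o' i.1 j.1) T' : ℤ) +
            LL (fun i : {i // ¬ p i} => rk i.1) (fun i j => o' i.1 j.1) T' ≤ LL rk o' T' := by
          exact_mod_cast h6
        intro hz
        have h7 := h5 hz
        linarith
      by_cases hr : o i₀ j₀ = 0
      · exact hsplit x o T h hr μ hμ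
      have hr1 : 1 ≤ o i₀ j₀ := Nat.one_le_iff_ne_zero.mpr hr
      by_cases hT : T = 0
      · -- crude bound
        subst hT
        have h1 := det_lemma (Q := Q) (v := v) (Fintype.card I) I le_rfl x
          (fun i => Q.D (x i)) o (Q.loss v + 1) rk hrk h.toConf μ hμ
        have h2 : (crd o 0 : ℤ) = Fintype.card I := by
          unfold crd
          rw [← Finset.card_univ]
          congr 2
          ext i
          simp only [Finset.mem_filter, Finset.mem_univ, true_and, iff_true]
          by_cases hi : i = i₀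
          · exact ⟨j₀, by rw [hi]; exact hij.symm, Nat.zero_le _⟩
          · exact ⟨i₀, fun h' => hi h'.symm, Nat.zero_le _⟩
        have h3 : BB μ ≤ Fintype.card I := by
          unfold BB
          calc ∑ j, ((μ j).2.toNat : ℤ) ≤ ∑ _j : I, (1 : ℤ) := by
                apply Finset.sum_le_sum
                intro j _
                cases (μ j).2 <;> simp
            _ = _ := by simp
        intro hz
        have h4 := h1 hz
        have h5 : (LL rk o 0 : ℤ) = Fintype.card I := by
          unfold LL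
          simp only [show Finset.Icc 1 0 = (∅ : Finset ℕ) from rfl, Finset.sum_empty, zero_add]
          exact h2
        rw [h5]
        have h6 : 4 * (Q.loss v + 1) * BB μ = 4 * Q.loss v * BB μ + 4 * BB μ := by ring
        linarith
      · have hT1 : 1 ≤ T := Nat.one_le_iff_ne_zero.mpr hT
        have h1 := expand_ref x o rk h
          (4 * (LL rk (fun i j => o i j - o i₀ j₀) (T - o i₀ j₀) : ℤ)) i₀ j₀ hij hmin' hr1
          (fun ν hν => hsplit _ _ (T - o i₀ j₀) (h.rescale i₀ j₀ hij hmin')
            (by simp) ν hν) μ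
        have h2 := LL_rescale rk hrk o T (o i₀ j₀) hr1 hT1 i₀ j₀ hij hmin'
        have h3 : (LL rk (fun i j => o i j - o i₀ j₀) (T - o i₀ j₀) : ℤ) + 1 ≤ LL rk o T := by
          exact_mod_cast h2
        intro hz
        have h4 := h1 hz
        linarith
    · -- at most one point
      have hall : ∀ i j : I, i = j := by
        intro i j
        by_contra hne
        exact hoff ⟨(i, j), Finset.mem_offDiag.mpr ⟨Finset.mem_univ _, Finset.mem_univ _, hne⟩⟩
      have hE : EE o = 0 := by
        unfold EE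
        apply Finset.sum_eq_zero
        intro i _
        apply Finset.sum_eq_zero
        intro j _
        rw [hall i j, h.oii]
      have hM : MM rk o = 0 := by
        unfold MM
        apply Finset.sum_eq_zero
        intro i _
        apply Nat.le_zero.mp
        apply Finset.sup_le
        intro j hj
        rw [hall i j, h.oii]
      intro hz
      have hg : Q.G v (∑ j, -(Q.loss v * ((μ j).2.toNat : ℤ)))
          (mat x (fun i => Q.D (x i)) μ).det := by
        apply G_det_row
        intro j i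
        unfold mat
        rw [Matrix.of_apply]
        have hw : Q.G v (-Q.loss v) (Q.D (x i)) := by
          have := PlaceData.G_D' 1 (h.hx i)
          refine PlaceData.G_mono this ?_
          push_cast
          omega
        have h1 := PlaceData.G_mul (PlaceData.G_pow (h.hx i) (μ j).1)
          (PlaceData.G_pow hw (μ j).2.toNat)
        refine PlaceData.G_mono h1 (le_of_eq ?_)
        ring
      have := hg hz
      rw [Finset.sum_neg_distrib, ← Finset.mul_sum] at this
      rw [hE, hM]
      have h0 : (0 : ℤ) ≤ LL rk o T := Int.natCast_nonneg _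
      unfold BB
      push_cast
      linarith

end Pool.Agent.V7H78.RP.UH
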