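import Pool.Agent.V7H78.RP.UH.H2
import Pool.Agent.V7H78.RP.UG.B3

/-!
# Covariance of the determinant under Moebius transformations
-/

namespace Pool.Agent.V7H78.RP.UH

open Pool.Agent.V7H78.RP.UB Pool.Agent.V7H78.RP.UG Finset

variable {k K : Type*} [Field k] [Field K] [Algebra k K] {Q : PlaceData k K} {v : Q.Pl}

lemma box_mdeg {a q : ℕ × Bool} (h : q ∈ UG.box a) : mdeg q ≤ mdeg a ∧ (mdeg q = mdeg a → q = a) := by
  obtain ⟨a, b⟩ := a
  obtain ⟨i, c⟩ := q
  simp only [UG.box, Finset.mem_product, Finset.mem_range] at h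
  obtain ⟨h1, h2⟩ := h
  cases b
  · have hc : c = false := by simpa using h2
    subst hc
    simp only [mdeg, Bool.toNat_false, add_zero]
    exact ⟨by omega, fun h => by rw [h]⟩
  · cases c
    · simp only [mdeg, Bool.toNat_false, Bool.toNat_true, add_zero]
      exact ⟨by omega, fun h => by omega⟩
    · simp only [mdeg, Bool.toNat_true]
      exact ⟨by omega, fun h => by
        have : i = a := by omega
        rw [this]⟩

/-- translation invariance -/
lemma det_trans (m : ℕ) (x w : Fin (2 * m) → K) (c c' : K) :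
    (mat (fun i => c + x i) (fun i => c' + w i) (mu m)).det = (mat x w (mu m)).det := by
  classical
  rw [det_expand (fun j => UG.box (mu m j)) (fun j q => cf c c' 1 (mu m j) q)
    (fun q i => x i ^ q.1 * w i ^ q.2.toNat)
    (mat (fun i => c + x i) (fun i => c' + w i) (mu m)) (by
      intro j i
      rw [← expand_entry]
      unfold mat
      rw [Matrix.of_apply, one_mul, one_mul])]
  rw [Finset.sum_eq_single (mu m)]
  · have h1 : ∏ j, cf c c' 1 (mu m j) (mu m j) = 1 := by
      apply Finset.prod_eq_one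
      intro j _
      unfold cf
      cases (mu m j).2 <;> simp
    rw [h1, one_mul]
    rfl
  · intro r hr hne
    rw [Fintype.mem_piFinset] at hr
    apply mul_eq_zero_of_right
    by_cases hinj : Function.Injective r
    · exfalso
      apply hne
      have h1 := sum_deg_inj r hinj
      rw [Fintype.card_fin] at h1
      have h2 := mu_deg m
      have h3 : ∑ j, (mdeg (r j) : ℤ) ≤ ∑ j, (mdeg (mu m j) : ℤ) := by
        apply Finset.sum_le_sum
        intro j _
        exact_mod_cast (box_mdeg (hr j)).1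
      have h4 : ∑ j, (mdeg (r j) : ℤ) = ∑ j, (mdeg (mu m j) : ℤ) := by
        apply le_antisymm h3
        rw [h2]
        push_cast at h1
        by_contra hcon
        push Not at hcon
        have : ∑ j, (mdeg (r j) : ℤ) ≤ (m : ℤ) ^ 2 - 1 := by omega
        nlinarith
      have h5 := (Finset.sum_eq_sum_iff_of_le (fun j _ => by
        exact_mod_cast (box_mdeg (hr j)).1)).mp h4
      funext j
      apply (box_mdeg (hr j)).2
      exact_mod_cast h5 j (Finset.mem_univ j)
    · rw [Function.Injective] at hinj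
      push Not at hinj
      obtain ⟨j, j', hjj, hne'⟩ := hinj
      apply Matrix.det_zero_of_row_eq hne'
      ext i
      simp only [Matrix.of_apply, hjj]
  · intro h
    exfalso
    apply h
    rw [Fintype.mem_piFinset]
    intro j
    unfold UG.box
    rw [Finset.mem_product, Finset.mem_range]
    refine ⟨by omega, ?_⟩
    cases (mu m j).2 <;> simp

/-- the reversal of the monomials -/
def rv (m : ℕ) (j : Fin (2 * m)) : Fin (2 * m) :=
  if h : j.1 ≤ m then ⟨m - j.1, by have := j.2; omega⟩ else ⟨3 * m - j.1, by have := j.2; omega⟩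

lemma rv_inv (m : ℕ) : Function.Involutive (rv m) := by
  intro j
  apply Fin.ext
  have hj := j.2
  unfold rv
  by_cases h : j.1 ≤ m
  · simp only [h, dif_pos]
    rw [dif_pos (by simp)]
    simp only
    omega
  · simp only [h, dif_neg, not_false_iff]
    rw [dif_neg (by first | omega | (simp only; omega))]
    simp only
    omega

lemma mu_rv (m : ℕ) (j : Fin (2 * m)) : (mu m (rv m j)).2 = (mu m j).2 ∧
    (mu m (rv m j)).1 + (mu m j).1 + 2 * (mu m j).2.toNat = m := by
  have hj := j.2
  unfold mu rv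
  by_cases h : j.1 ≤ m
  · simp only [h, dif_pos, if_true]
    rw [if_pos (by simp)]
    simp only [Bool.toNat_false, true_and]
    omega
  · simp only [h, dif_neg, not_false_iff, if_false]
    rw [if_neg (by first | omega | (simp only; omega))]
    simp only [Bool.toNat_true, true_and]
    omega

/-- inversion -/
lemma det_inv (m : ℕ) (e w : Fin (2 * m) → K) (he : ∀ i, e i ≠ 0) :
    ∃ ε : K, (ε = 1 ∨ ε = -1) ∧
      (mat (fun i => (e i)⁻¹) (fun i => -(w i) / (e i) ^ 2) (mu m)).det =
        ε * (∏ i, (e i)⁻¹ ^ m) * (mat e w (mu m)).det := by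
  classical
  set σ : Equiv.Perm (Fin (2 * m)) := (rv_inv m).toPerm with hσ
  have hσj : ∀ j, σ j = rv m j := fun j => rfl
  have h1 : mat (fun i => (e i)⁻¹) (fun i => -(w i) / (e i) ^ 2) (mu m) =
      Matrix.of fun j i => ((-1 : K) ^ (mu m j).2.toNat) *
        (Matrix.of fun j i => ((e i)⁻¹ ^ m) *
          (Matrix.of fun j i => (mat e w (mu m)) (σ j) i) j i) j i := by
    ext j i
    simp only [Matrix.of_apply]
    unfold mat
    rw [Matrix.of_apply, Matrix.of_apply, hσj, (mu_rv m j).1]
    have h2 := (mu_rv m j).2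
    have h3 := he i
    obtain ⟨⟨a, b⟩, hab⟩ : ∃ q, mu m j = q := ⟨_, rfl⟩
    rw [hab] at h2 ⊢
    simp only at h2 ⊢
    have h4 : (e i)⁻¹ ^ m = (e i)⁻¹ ^ (mu m (rv m j)).1 * ((e i)⁻¹ ^ a *
        (e i)⁻¹ ^ (2 * b.toNat)) := by
      rw [← pow_add, ← pow_add]
      congr 1
      omega
    rw [h4]
    have h5 : (e i)⁻¹ ^ (mu m (rv m j)).1 * (e i) ^ (mu m (rv m j)).1 = 1 := by
      rw [← mul_pow, inv_mul_cancel₀ h3, one_pow]
    cases b
    · simp only [Bool.toNat_false, pow_zero, mul_one, one_mul, mul_zero]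
      linear_combination (-(e i)⁻¹ ^ a) * h5
    · simp only [Bool.toNat_true, pow_one, mul_one]
      have h6 : -(w i) / (e i) ^ 2 = -(w i) * (e i)⁻¹ ^ 2 := by
        rw [div_eq_mul_inv, inv_pow]
      rw [h6]
      linear_combination ((e i)⁻¹ ^ a * (e i)⁻¹ ^ 2 * (w i)) * h5
  rw [h1, Matrix.det_mul_column, Matrix.det_mul_row (fun i => (e i)⁻¹ ^ m)
    (Matrix.of fun j i => (mat e w (mu m)) (σ j) i)]
  have h2 : (Matrix.of fun j i => (mat e w (mu m)) (σ j) i).det =
      (Equiv.Perm.sign σ : ℤ) * (mat e w (mu m)).det := by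
    exact Matrix.det_permute σ _
  rw [h2]
  have hs : ((Equiv.Perm.sign σ : ℤ) : K) = 1 ∨ ((Equiv.Perm.sign σ : ℤ) : K) = -1 := by
    rcases Int.units_eq_one_or (Equiv.Perm.sign σ) with h | h <;> rw [h] <;> simp
  have hp : (∏ j, (-1 : K) ^ (mu m j).2.toNat) = 1 ∨ (∏ j, (-1 : K) ^ (mu m j).2.toNat) = -1 := by
    rw [Finset.prod_pow_eq_pow_sum]
    exact neg_one_pow_eq_or K _
  refine ⟨(∏ j, (-1 : K) ^ (mu m j).2.toNat) * ((Equiv.Perm.sign σ : ℤ) : K), ?_, by ring⟩
  rcases hs with hs | hs <;> rcases hp with hp | hp <;> rw [hs, hp] <;> simp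

/-- **Covariance.** -/
theorem cov (Q : PlaceData k K) (m : ℕ) (z : Fin (2 * m) → K) (b : Fin (2 * m)) (μ lam ν : K)
    (hlam : lam ≠ 0) (hz : ∀ i, z i ≠ μ) :
    ∃ ε : K, (ε = 1 ∨ ε = -1) ∧ cdet Q m z b = ε * lam ^ m ^ 2 *
      (∏ i, (lam / (z i - μ))⁻¹ ^ m) *
      (mat (fun i => ν + lam / (z i - μ)) (fun i => Q.D (ν + lam / (z i - μ))) (mu m)).det := by
  set e : Fin (2 * m) → K := fun i => lam / (z i - μ) with he
  have he0 : ∀ i, e i ≠ 0 := fun i => div_ne_zero hlam (sub_ne_zero.mpr (hz i))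
  obtain ⟨ε, hε, h1⟩ := det_inv m e (fun i => Q.D (e i)) he0
  refine ⟨ε, hε, ?_⟩
  have h2 : (mat (fun i => ν + e i) (fun i => Q.D (ν + e i)) (mu m)).det =
      (mat e (fun i => Q.D (e i)) (mu m)).det := by
    have := det_trans m e (fun i => Q.D (e i)) ν (Q.D ν)
    rw [← this]
    congr 2
    funext i
    rw [map_add]
  have h3 : cdet Q m z b = (mat (fun i => z i - μ) (fun i => Q.D (z i - μ)) (mu m)).det := by
    have := det_trans m (fun i => z i - z b) (fun i => Q.D (z i - z b)) (z b - μ) (Q.D (z b - μ))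
    unfold cdet
    rw [← this]
    congr 2
    · funext i
      ring
    · funext i
      rw [← map_add]
      congr 1
      ring
  have h4 := det_scale (fun i => (e i)⁻¹) (fun i => -(Q.D (e i)) / (e i) ^ 2) lam (Q.D lam) (mu m)
    (mu_closed m)
  have h5 : (mat (fun i => z i - μ) (fun i => Q.D (z i - μ)) (mu m)).det =
      (mat (fun i => lam * (e i)⁻¹) (fun i => lam * (-(Q.D (e i)) / (e i) ^ 2) +
        Q.D lam * (e i)⁻¹) (mu m)).det := by
    have h6 : ∀ i, z i - μ = lam * (e i)⁻¹ := by
      intro i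
      have := sub_ne_zero.mpr (hz i)
      simp only [he]
      field_simp
    congr 2
    · funext i
      exact h6 i
    · funext i
      rw [h6 i, Derivation.leibniz, Derivation.leibniz_inv]
      simp only [smul_eq_mul]
      have := he0 i
      field_simp
  have hdeg : ∑ j, mdeg (mu m j) = m ^ 2 := by
    have := mu_deg m
    exact_mod_cast this
  rw [h3, h5, h4, hdeg, h1, h2]
  ring

end Pool.Agent.V7H78.RP.UH
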