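import Pool.Agent.V7H78.RP.UB.Pl

/-!
# Local coordinates
-/

namespace Pool.Agent.V7H78.RP.UH

open Pool.Agent.V7H78.RP.UB

universe u

/-- number of colours -/
def q₀ (d : ℕ) : ℕ := (d ^ 6 + d ^ 6) * (16 * d * (d + 1) + 1)

variable {k : Type*} {K : Type u} [Field k] [Field K] [Algebra k K]

/-- The Green function. -/
noncomputable def GG (Q : PlaceData k K) (v : Q.Pl) (a : K → ℝ) (ρ : ℝ) (z z' : K) : ℝ :=
  Q.ord v (z - z') - a z - a z' + ρ

/-- the local coordinate -/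
noncomputable def lc (μ lam ν z : K) : K := ν + lam / (z - μ)

lemma lc_sub {μ lam ν z z' : K} (hz : z ≠ μ) (hz' : z' ≠ μ) :
    lc μ lam ν z - lc μ lam ν z' = -(lam * (z - z') / ((z - μ) * (z' - μ))) := by
  have h1 : z - μ ≠ 0 := sub_ne_zero.mpr hz
  have h2 : z' - μ ≠ 0 := sub_ne_zero.mpr hz'
  unfold lc
  field_simp
  ring

end Pool.Agent.V7H78.RP.UH
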