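import Pool.Agent.V7H78.RP.UH.L9

/-!
# The local theorem in affine coordinates
-/

namespace Pool.Agent.V7H78.RP.UH

open Pool.Agent.V7H78.RP.UB Pool.Agent.V7H78.RP.UG Finset Polynomial

universe u

variable {k : Type*} {K : Type u} [Field k] [Field K] [Algebra k K]

/-- **The local theorem.** -/
theorem local_all [Infinite k] [DecidableEq K] (Q : PlaceData k K) (v : Q.Pl) (d : ℕ) (hd : 2 ≤ d)
    (p q : Polynomial K) (hp : p.natDegree ≤ d) (hq : q.natDegree = d) (hco : IsCoprime p q)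
    (P : Finset K) (hP : ∀ z ∈ P, q.eval z ≠ 0 ∧ p.eval z / q.eval z ∈ P) (a : K → ℝ)
    (ha : ∀ z ∈ P, (d : ℝ) * a z = Q.ord v (q.eval z) + a (p.eval z / q.eval z)) (ρ : ℝ)
    (hρ : ρ = (Q.ord v (resultant q p d d) : ℝ) / (d * ((d : ℝ) - 1)))
    (hπ : ∃ π : K, π ≠ 0 ∧ Q.ord v π ≠ 0) :
    ∃ (μ lam ν : K) (τ : ℝ) (R : ℕ), lam ≠ 0 ∧ (∀ z ∈ P, z ≠ μ ∧ Q.G v 0 (lc μ lam ν z)) ∧
      (R : ℝ) / (d * ((d : ℝ) - 1)) = ρ + Q.ord v lam + 2 * τ ∧
      (∀ z ∈ P, 0 ≤ a z + Q.ord v (lam / (z - μ)) + τ ∧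
        a z + Q.ord v (lam / (z - μ)) + τ ≤ R / ((d : ℝ) - 1)) ∧
      (∀ n : ℕ, (d : ℝ) ^ (2 * n) ≤ P.card → -(4 * (P.card : ℝ) ^ 2 * R / (d : ℝ) ^ n) ≤
        ∑ z ∈ P, ∑ z' ∈ P, if z = z' then 0 else GG Q v a ρ z z') ∧
      (1 ≤ R → ∃ χ : K → Fin (q₀ d), ∀ z ∈ P, ∀ z' ∈ P, z ≠ z' → χ z = χ z' →
        (R : ℝ) / (8 * d * (d + 1)) ≤ Q.ord v (lc μ lam ν z - lc μ lam ν z') -
          2 * (a z + Q.ord v (lam / (z - μ)) + τ) + (R : ℝ) / (d * ((d : ℝ) - 1))) := by
  classical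
  obtain ⟨π, hπ0, hπ1⟩ := hπ
  obtain ⟨Ω, _, _, _, ι, hι⟩ := exists_ext Q v π hπ0 hπ1
  have hlog : ∀ x : K, x ≠ 0 → -Real.log ‖ι x‖ = Q.ord v x := by
    intro x hx
    rw [hι x hx, Real.log_exp, neg_neg]
  let κ : ℕ → K := fun i => algebraMap k K (Infinite.natEmbedding k i)
  have hκinj : ∀ i j, κ i = κ j → i = j := by
    intro i j h
    exact (Infinite.natEmbedding k).injective ((algebraMap k K).injective h)
  have hκ : IsFam ι κ := by
    constructor
    · intro i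
      by_cases h0 : κ i = 0
      · rw [h0, map_zero, norm_zero]
        exact zero_le_one
      · rw [hι _ h0]
        have h1 : Infinite.natEmbedding k i ≠ 0 := by
          intro h
          apply h0
          show algebraMap k K (Infinite.natEmbedding k i) = 0
          rw [h, map_zero]
        rw [Q.ord_alg v _ h1]
        simp
    · intro i j hij
      have h1 : Infinite.natEmbedding k i - Infinite.natEmbedding k j ≠ 0 := by
        rw [sub_ne_zero]
        exact fun h => hij ((Infinite.natEmbedding k).injective h)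
      have h2 : κ i - κ j =
          algebraMap k K (Infinite.natEmbedding k i - Infinite.natEmbedding k j) := by
        rw [map_sub]
      have h3 : κ i - κ j ≠ 0 := by
        rw [h2]
        exact (_root_.map_ne_zero _).mpr h1
      rw [hι _ h3, h2, Q.ord_alg v _ h1]
      simp
  obtain ⟨U, V, s, R, t, X, A, hUV, hs, hR, hX, hAb, hE, hC⟩ :=
    local_vec ι (Q.ord v) hι hκ d hd p q hp hq hco P hP a ha
  rw [← hρ] at hR
  have hdR : (2 : ℝ) ≤ d := by exact_mod_cast hd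
  -- ord facts
  have hordn : ∀ x : K, x ≠ 0 → ‖ι x‖ = 1 → Q.ord v x = 0 := by
    intro x hx h
    have h1 := hlog x hx
    rw [h, Real.log_one, neg_zero] at h1
    exact_mod_cast h1.symm
  -- choose the constant
  obtain ⟨B, hB⟩ := exists_famK ι hκ
  obtain ⟨E, hE'⟩ := bad_finite B (P.image fun z => vm ι (X z)) (by
    intro W hW
    rw [Finset.mem_image] at hW
    obtain ⟨z, _, rfl⟩ := hW
    exact (hX z).2.1)
  obtain ⟨E2, hE2⟩ : ∃ E2 : Finset ℕ, ∀ i, i ∉ E2 → κ i * U.2 + V.2 ≠ 0 := by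
    by_cases hU2 : U.2 = 0
    · refine ⟨∅, fun i _ h => ?_⟩
      rw [hU2, mul_zero, zero_add] at h
      apply hUV
      unfold wd
      rw [hU2, h]
      ring
    · by_cases hex : ∃ i₀ : ℕ, κ i₀ * U.2 + V.2 = 0
      · obtain ⟨i₀, hi₀⟩ := hex
        refine ⟨{i₀}, fun i hi h => ?_⟩
        rw [Finset.mem_singleton] at hi
        apply hi
        have h1 : κ i * U.2 = κ i₀ * U.2 := by linear_combination h - hi₀
        exact hκinj _ _ (mul_right_cancel₀ hU2 h1)
      · push Not at hex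
        exact ⟨∅, fun i _ => hex i⟩
  obtain ⟨i, hi⟩ := Infinite.exists_notMem_finset (E ∪ E2)
  rw [Finset.mem_union, not_or] at hi
  set c : K := κ i with hc
  set U2 : K := c * U.2 + V.2 with hU2
  have hU20 : U2 ≠ 0 := hE2 i hi.2
  set U1 : K := c * U.1 + V.1 with hU1
  -- the denominators
  have hden : ∀ z ∈ P, ‖ι ((X z).1 - c * (X z).2)‖ = 1 := by
    intro z hz
    have h1 := hE' i hi.1 _ (Finset.mem_image_of_mem _ hz)
    rw [hB i, vm_wd] at h1
    have h2 : wd ((c, 1) : K × K) (X z) = -((X z).1 - c * (X z).2) := by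
      unfold wd
      ring
    rw [← hc, h2, map_neg, norm_neg] at h1
    exact h1
  have hden0 : ∀ z ∈ P, (X z).1 - c * (X z).2 ≠ 0 := by
    intro z hz h
    have := hden z hz
    rw [h, map_zero, norm_zero] at this
    exact zero_ne_one this
  -- explicit formulas
  set W : K := wd U V with hW
  have hWe : W = U.1 * V.2 - U.2 * V.1 := rfl
  set μ : K := U1 / U2 with hμ
  set lam : K := W / U2 ^ 2 with hlam
  set ν : K := -(U.2 / U2) with hν
  have hlam0 : lam ≠ 0 := div_ne_zero hUV (pow_ne_zero _ hU20)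
  have hcoord : ∀ z ∈ P, t z * ((X z).1 * U.1 + (X z).2 * V.1) = z ∧
      t z * ((X z).1 * U.2 + (X z).2 * V.2) = 1 := by
    intro z _
    have h1 := (hX z).2.2.1
    unfold gmK at h1
    have e1 := congrArg Prod.fst h1
    have e2 := congrArg Prod.snd h1
    simp only [Prod.smul_fst, Prod.smul_snd, Prod.fst_add, Prod.snd_add, smul_eq_mul] at e1 e2
    exact ⟨e1, e2⟩
  -- z - μ
  have hzμ : ∀ z ∈ P, (z - μ) * U2 = t z * ((X z).1 - c * (X z).2) * W := by
    intro z hz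
    obtain ⟨e1, e2⟩ := hcoord z hz
    have h1 : (z - μ) * U2 = z * U2 - U1 := by
      rw [hμ]
      field_simp
    rw [h1]
    have key : ∀ tt x1 x2 u1 u2 v1 v2 cc zz : K, tt * (x1 * u1 + x2 * v1) = zz →
        tt * (x1 * u2 + x2 * v2) = 1 →
        zz * (cc * u2 + v2) - (cc * u1 + v1) = tt * (x1 - cc * x2) * (u1 * v2 - u2 * v1) := by
      intro tt x1 x2 u1 u2 v1 v2 cc zz g1 g2
      rw [← g1]
      linear_combination (-(cc * u1 + v1)) * (-g2)
    exact key _ _ _ _ _ _ _ _ _ e1 e2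
  have hzne : ∀ z ∈ P, z ≠ μ := by
    intro z hz h
    have h1 := hzμ z hz
    have h0 : z - μ = 0 := sub_eq_zero.mpr h
    rw [h0, zero_mul] at h1
    exact mul_ne_zero (mul_ne_zero (hX z).1 (hden0 z hz)) hUV h1.symm
  have hlx : ∀ z ∈ P, lam / (z - μ) = 1 / (t z * ((X z).1 - c * (X z).2) * U2) := by
    intro z hz
    have h1 := (hX z).1
    have h2 := hden0 z hz
    have h3 : z - μ ≠ 0 := sub_ne_zero.mpr (hzne z hz)
    have key : ∀ W' u2 tt x : K, x ≠ 0 → u2 ≠ 0 → tt ≠ 0 → x * u2 = tt * W' →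
        (W' / u2 ^ 2) / x = 1 / (tt * u2) := by
      intro W' u2 tt x g1 g2 g3 g4
      rw [div_div, div_eq_div_iff (mul_ne_zero (pow_ne_zero _ g2) g1) (mul_ne_zero g3 g2)]
      linear_combination (-u2) * g4
    exact key _ _ _ _ h3 hU20 (mul_ne_zero h1 h2) (hzμ z hz)
  have hlcx : ∀ z ∈ P, lc μ lam ν z = (X z).2 / ((X z).1 - c * (X z).2) := by
    intro z hz
    unfold lc
    rw [hlx z hz, hν]
    have h1 := (hX z).1
    have h2 := hden0 z hz
    obtain ⟨_, e2⟩ := hcoord z hz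
    have h3 : (t z)⁻¹ = (X z).1 * U.2 + (X z).2 * V.2 := by
      rw [← mul_right_inj' h1, mul_inv_cancel₀ h1, e2]
    have h4 : 1 / (t z * ((X z).1 - c * (X z).2) * U2) =
        (t z)⁻¹ / (((X z).1 - c * (X z).2) * U2) := by
      field_simp
    rw [h4, h3]
    have h5 : (X z).1 * U.2 + (X z).2 * V.2 =
        (X z).2 * U2 + ((X z).1 - c * (X z).2) * U.2 := by
      rw [hU2]
      ring
    rw [h5]
    have key : ∀ b' dd u2 us : K, dd ≠ 0 → u2 ≠ 0 →
        -(us / u2) + (b' * u2 + dd * us) / (dd * u2) = b' / dd := by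
      intro b' dd u2 us h1 h2
      field_simp
      ring
    exact key _ _ _ _ h2 hU20
  have hordden : ∀ z ∈ P, Q.ord v ((X z).1 - c * (X z).2) = 0 := fun z hz =>
    hordn _ (hden0 z hz) (hden z hz)
  have hordlx : ∀ z ∈ P, (Q.ord v (lam / (z - μ)) : ℝ) = -Q.ord v (t z) - Q.ord v U2 := by
    intro z hz
    rw [hlx z hz, PlaceData.ord_div one_ne_zero
      (mul_ne_zero (mul_ne_zero (hX z).1 (hden0 z hz)) hU20), PlaceData.ord_one,
      Q.ord_mul v _ _ (mul_ne_zero (hX z).1 (hden0 z hz)) hU20,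
      Q.ord_mul v _ _ (hX z).1 (hden0 z hz), hordden z hz]
    push_cast
    ring
  set σ : ℝ := Q.ord v s / ((d : ℝ) - 1) with hσ
  set τ : ℝ := Q.ord v U2 + σ with hτ
  have hordlam : (Q.ord v lam : ℝ) = Q.ord v W - 2 * Q.ord v U2 := by
    rw [hlam, PlaceData.ord_div hUV (pow_ne_zero _ hU20), PlaceData.ord_pow hU20]
    push_cast
    ring
  have hAeq : ∀ z ∈ P, a z + Q.ord v (lam / (z - μ)) + τ = A z := by
    intro z hz
    rw [hordlx z hz, (hX z).2.2.2, hτ, hσ]
    ring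
  have hwdne : ∀ z z' : K, z ≠ z' → wd (X z) (X z') ≠ 0 := by
    intro z z' hne h
    have h1 := wd_gmK U V (X z) (X z')
    rw [h, mul_zero] at h1
    have h2 : wd (t z • gmK U V (X z)) (t z' • gmK U V (X z')) = 0 := by
      rw [wd_smul_left, wd_smul_right, h1, mul_zero, mul_zero]
    rw [(hX z).2.2.1, (hX z').2.2.1] at h2
    unfold wd at h2
    simp only [mul_one, one_mul] at h2
    exact hne (sub_eq_zero.mp h2)
  have hlogw : ∀ z z' : K, z ≠ z' → -Real.log ‖wd (vm ι (X z)) (vm ι (X z'))‖ =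
      Q.ord v (wd (X z) (X z')) := by
    intro z z' hne
    rw [vm_wd, hlog _ (hwdne z z' hne)]
  have hzz : ∀ z z' : K, z - z' = t z * t z' * (W * wd (X z) (X z')) := by
    intro z z'
    have h2 : wd (t z • gmK U V (X z)) (t z' • gmK U V (X z')) =
        t z * t z' * (W * wd (X z) (X z')) := by
      rw [wd_smul_left, wd_smul_right, wd_gmK]
      ring
    rw [(hX z).2.2.1, (hX z').2.2.1] at h2
    rw [← h2]
    unfold wd
    ring
  have hordzz : ∀ z z' : K, z ≠ z' → (Q.ord v (z - z') : ℝ) =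
      Q.ord v (t z) + Q.ord v (t z') + Q.ord v W + Q.ord v (wd (X z) (X z')) := by
    intro z z' hne
    rw [hzz z z', Q.ord_mul v _ _ (mul_ne_zero (hX z).1 (hX z').1)
      (mul_ne_zero hUV (hwdne z z' hne)), Q.ord_mul v _ _ (hX z).1 (hX z').1,
      Q.ord_mul v _ _ hUV (hwdne z z' hne)]
    push_cast
    ring
  have hGG : ∀ z z' : K, z ≠ z' → -Real.log ‖wd (vm ι (X z)) (vm ι (X z'))‖ - A z - A z' +
      (R : ℝ) / (d * ((d : ℝ) - 1)) = GG Q v a ρ z z' := by
    intro z z' hne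
    unfold GG
    rw [hlogw z z' hne, hordzz z z' hne, (hX z).2.2.2, (hX z').2.2.2, hR]
    ring
  have hordlc : ∀ z ∈ P, ∀ z' ∈ P, z ≠ z' → Q.ord v (lc μ lam ν z - lc μ lam ν z') =
      Q.ord v (wd (X z) (X z')) := by
    intro z hz z' hz' hne
    have h1 := hden0 z hz
    have h2 := hden0 z' hz'
    have h3 : lc μ lam ν z - lc μ lam ν z' =
        -(wd (X z) (X z') / (((X z).1 - c * (X z).2) * ((X z').1 - c * (X z').2))) := by
      rw [hlcx z hz, hlcx z' hz']
      have key : ∀ a b a' b' cc : K, a - cc * b ≠ 0 → a' - cc * b' ≠ 0 →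
          b / (a - cc * b) - b' / (a' - cc * b') =
            -((a * b' - b * a') / ((a - cc * b) * (a' - cc * b'))) := by
        intro a b a' b' cc g1 g2
        rw [div_sub_div _ _ g1 g2, ← neg_div]
        congr 1
        ring
      exact key _ _ _ _ _ h1 h2
    rw [h3, PlaceData.ord_neg (div_ne_zero (hwdne z z' hne) (mul_ne_zero h1 h2)),
      PlaceData.ord_div (hwdne z z' hne) (mul_ne_zero h1 h2), Q.ord_mul v _ _ h1 h2,
      hordden z hz, hordden z' hz']
    ring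
  refine ⟨μ, lam, ν, τ, R, hlam0, fun z hz => ⟨hzne z hz, ?_⟩, ?_, ?_, ?_, ?_⟩
  · -- integrality
    intro h0
    have h1 := hι _ h0
    have h2 : ‖ι (lc μ lam ν z)‖ ≤ 1 := by
      rw [hlcx z hz, map_div₀, norm_div, hden z hz, div_one]
      have h3 := norm_snd_le (vm ι (X z))
      rw [(hX z).2.1] at h3
      exact h3
    rw [h1, ← Real.exp_zero] at h2
    have h4 := Real.exp_le_exp.mp h2
    have h5 : (0 : ℝ) ≤ Q.ord v (lc μ lam ν z) := by linarith
    exact_mod_cast h5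
  · rw [hR, hordlam, hτ, hσ]
    ring
  · intro z hz
    rw [hAeq z hz]
    exact hAb z hz
  · intro n hn
    have h1 := hE n hn
    refine h1.trans (le_of_eq ?_)
    apply Finset.sum_congr rfl
    intro z _
    apply Finset.sum_congr rfl
    intro z' _
    by_cases h : z = z'
    · simp [h]
    · rw [if_neg h, if_neg h, hGG z z' h]
  · intro hR1
    obtain ⟨χ, hχ⟩ := hC hR1
    refine ⟨χ, fun z hz z' hz' hne hzz' => ?_⟩
    have h1 := hχ z hz z' hz' hne hzz'
    rw [hlogw z z' hne] at h1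
    rw [hordlc z hz z' hz' hne, hAeq z hz]
    exact h1

end Pool.Agent.V7H78.RP.UH
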