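import Pool.Agent.V7H78.RP.UH.L1

/-!
# Composition, conjugation and construction of homogeneous maps
-/

namespace Pool.Agent.V7H78.RP.UH

open Pool.Agent.V7H78.RP.UG Finset Polynomial

variable {Ω : Type*} [NormedField Ω]

lemma exists_unit (W : Ω × Ω) (hW : W ≠ 0) :
    ∃ (t : Ω) (W' : Ω × Ω), t ≠ 0 ∧ ‖W'‖ = 1 ∧ W = t • W' ∧ ‖t‖ = ‖W‖ := by
  obtain ⟨t, ht⟩ : ∃ t : Ω, ‖t‖ = ‖W‖ := by
    rw [Prod.norm_def]
    rcases le_total ‖W.1‖ ‖W.2‖ with h | h
    · exact ⟨W.2, (max_eq_right h).symm⟩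
    · exact ⟨W.1, (max_eq_left h).symm⟩
  have ht0 : t ≠ 0 := by
    rw [← norm_pos_iff, ht]
    exact norm_pos_iff.mpr hW
  refine ⟨t, t⁻¹ • W, ht0, ?_, ?_, ht⟩
  · rw [norm_smul, norm_inv, ht]
    exact inv_mul_cancel₀ (norm_pos_iff.mpr hW).ne'
  · rw [smul_smul, mul_inv_cancel₀ ht0, one_smul]

/-- normalising a root system -/
lemma norm_roots (F : Ω × Ω → Ω × Ω) (d : ℕ) (hom : ∀ (t : Ω) X, F (t • X) = t ^ d • F X)
    (Y : Ω × Ω) (c : Ω) (η : Fin d → Ω × Ω) (hc : c ≠ 0) (hη : ∀ l, η l ≠ 0)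
    (h : ∀ X, wd (F X) Y = c * ∏ l, wd X (η l)) :
    ∃ (c' : Ω) (η' : Fin d → Ω × Ω), c' ≠ 0 ∧ (∀ l, ‖η' l‖ = 1) ∧
      (∀ X, wd (F X) Y = c' * ∏ l, wd X (η' l)) ∧
      ‖c'‖ ^ d * ∏ l, ‖F (η' l)‖ = ‖c‖ ^ d * ∏ l, ‖F (η l)‖ := by
  choose t η' ht hη' he hn using fun l => exists_unit (η l) (hη l)
  refine ⟨c * ∏ l, t l, η', mul_ne_zero hc (Finset.prod_ne_zero_iff.mpr fun l _ => ht l), hη',
    ?_, ?_⟩
  · intro X
    rw [h X, mul_assoc, ← Finset.prod_mul_distrib]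
    congr 1
    apply Finset.prod_congr rfl
    intro l _
    rw [he l, wd_smul_right]
  · rw [norm_mul, mul_pow, mul_assoc, norm_prod, ← Finset.prod_pow, ← Finset.prod_mul_distrib]
    congr 1
    apply Finset.prod_congr rfl
    intro l _
    conv_rhs => rw [he l, hom, norm_smul, norm_pow]

namespace HS

/-- the identity -/
noncomputable def one (Ω : Type*) [NormedField Ω] : HS Ω where
  F := id
  d := 1
  hd := le_rfl
  Res := 0
  hom := by intro t X; simp
  nz := fun X hX => hX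
  roots := by
    intro Y hY
    refine ⟨1, fun _ => Y, one_ne_zero, fun _ => hY, ?_, ?_⟩
    · intro X
      simp
    · simp [hY]

/-- composition -/
noncomputable def comp (S₁ S₂ : HS Ω) : HS Ω where
  F := S₁.F ∘ S₂.F
  d := S₁.d * S₂.d
  hd := Nat.one_le_iff_ne_zero.mpr (Nat.mul_ne_zero (by have := S₁.hd; omega)
    (by have := S₂.hd; omega))
  Res := S₂.d * S₁.Res + (S₁.d : ℝ) ^ 2 * S₂.Res
  hom := by
    intro t X
    simp only [Function.comp_apply]
    rw [S₂.hom, S₁.hom, ← pow_mul, mul_comm]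
  nz := fun X hX => S₁.nz _ (S₂.nz _ hX)
  roots := by
    intro Y hY
    obtain ⟨c, η, hc, hη, hr, hR⟩ := S₁.roots Y hY
    choose c' θ hc' hθ hr' hR' using fun l => S₂.roots (η l) (hη l)
    refine ⟨c * ∏ l, c' l, fun i => θ (finProdFinEquiv.symm i).1 (finProdFinEquiv.symm i).2,
      mul_ne_zero hc (Finset.prod_ne_zero_iff.mpr fun l _ => hc' l), fun i => hθ _ _, ?_, ?_⟩
    · intro X
      simp only [Function.comp_apply]
      rw [hr (S₂.F X), Equiv.prod_comp finProdFinEquiv.symm (fun q => wd X (θ q.1 q.2)),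
        Fintype.prod_prod_type, mul_assoc, ← Finset.prod_mul_distrib]
      congr 1
      apply Finset.prod_congr rfl
      intro l _
      exact hr' l X
    · rw [Equiv.prod_comp finProdFinEquiv.symm (fun q => ‖(S₁.F ∘ S₂.F) (θ q.1 q.2)‖),
        Fintype.prod_prod_type]
      have h1 : ∀ l l', ‖(S₁.F ∘ S₂.F) (θ l l')‖ = ‖S₂.F (θ l l')‖ ^ S₁.d * ‖S₁.F (η l)‖ := by
        intro l l'
        obtain ⟨t, ht⟩ := rs_root (S := S₂) ⟨hc' l, hθ l, hr' l, hR' l⟩ (hη l) l'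
        simp only [Function.comp_apply]
        rw [ht, S₁.hom, norm_smul, norm_smul, norm_pow, hη l, mul_one]
      simp_rw [h1, Finset.prod_mul_distrib, Finset.prod_pow, Finset.prod_const, Finset.card_univ,
        Fintype.card_fin]
      rw [norm_mul, norm_prod]
      have h2 : ∏ l, (‖c' l‖ ^ S₂.d * ∏ l', ‖S₂.F (θ l l')‖) = Real.exp (-S₂.Res) ^ S₁.d := by
        simp_rw [hR']
        simp
      rw [Finset.prod_mul_distrib, Finset.prod_pow] at h2
      have e1 : Real.exp (-(S₂.d * S₁.Res + (S₁.d : ℝ) ^ 2 * S₂.Res)) =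
          (Real.exp (-S₁.Res)) ^ S₂.d * (Real.exp (-S₂.Res) ^ S₁.d) ^ S₁.d := by
        rw [← Real.exp_nat_mul, ← Real.exp_nat_mul, ← Real.exp_nat_mul, ← Real.exp_add]
        congr 1
        push_cast
        ring
      rw [e1, ← hR, ← h2]
      simp only [Finset.prod_pow]
      generalize (∏ l, ‖S₁.F (η l)‖) = A'
      generalize (∏ l, ∏ l', ‖S₂.F (θ l l')‖) = B'
      generalize (∏ l, ‖c' l‖) = C'
      ring

/-- iteration -/
noncomputable def iter (S : HS Ω) : ℕ → HS Ω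
  | 0 => one Ω
  | n + 1 => comp (iter S n) S

lemma iter_F (S : HS Ω) (n : ℕ) : (S.iter n).F = S.F^[n] := by
  induction n with
  | zero => rfl
  | succ n ih =>
    show (S.iter n).F ∘ S.F = _
    rw [ih, Function.iterate_succ]

lemma iter_d (S : HS Ω) (n : ℕ) : (S.iter n).d = S.d ^ n := by
  induction n with
  | zero => rfl
  | succ n ih =>
    show (S.iter n).d * S.d = _
    rw [ih, pow_succ]

lemma iter_Res (S : HS Ω) (n : ℕ) : (S.iter n).Res * (S.d * ((S.d : ℝ) - 1)) =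
    S.Res * ((S.d : ℝ) ^ n * ((S.d : ℝ) ^ n - 1)) := by
  induction n with
  | zero =>
    show (0 : ℝ) * _ = _
    simp
  | succ n ih =>
    have h1 : (S.iter (n + 1)).Res = S.d * (S.iter n).Res + ((S.iter n).d : ℝ) ^ 2 * S.Res := rfl
    rw [h1, iter_d]
    push_cast
    have : (S.d * (S.iter n).Res + ((S.d : ℝ) ^ n) ^ 2 * S.Res) * (S.d * ((S.d : ℝ) - 1)) =
        S.d * ((S.iter n).Res * (S.d * ((S.d : ℝ) - 1))) +
        ((S.d : ℝ) ^ n) ^ 2 * S.Res * (S.d * ((S.d : ℝ) - 1)) := by ring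
    rw [this, ih]
    ring

end HS

/-- the linear map with columns `U`, `V` -/
def gm (U V X : Ω × Ω) : Ω × Ω := X.1 • U + X.2 • V

/-- its inverse -/
noncomputable def gi (U V X : Ω × Ω) : Ω × Ω := ((wd U V)⁻¹ * wd X V, (wd U V)⁻¹ * wd U X)

lemma wd_gm (U V X Y : Ω × Ω) : wd (gm U V X) (gm U V Y) = wd U V * wd X Y := by
  unfold gm wd
  simp only [Prod.fst_add, Prod.snd_add, Prod.smul_fst, Prod.smul_snd, smul_eq_mul]
  ring

lemma gm_gi {U V : Ω × Ω} (h : wd U V ≠ 0) (X : Ω × Ω) : gm U V (gi U V X) = X := by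
  have h' : U.1 * V.2 - U.2 * V.1 ≠ 0 := h
  unfold gm gi wd
  ext
  · simp only [Prod.fst_add, Prod.smul_fst, smul_eq_mul]
    field_simp
    ring
  · simp only [Prod.snd_add, Prod.smul_snd, smul_eq_mul]
    field_simp
    ring

lemma gi_gm {U V : Ω × Ω} (h : wd U V ≠ 0) (X : Ω × Ω) : gi U V (gm U V X) = X := by
  have h' : U.1 * V.2 - U.2 * V.1 ≠ 0 := h
  unfold gm gi wd
  ext
  · simp only [Prod.fst_add, Prod.snd_add, Prod.smul_fst, Prod.smul_snd, smul_eq_mul]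
    field_simp
    ring
  · simp only [Prod.fst_add, Prod.snd_add, Prod.smul_fst, Prod.smul_snd, smul_eq_mul]
    field_simp
    ring

lemma gi_smul (U V : Ω × Ω) (t : Ω) (X : Ω × Ω) : gi U V (t • X) = t • gi U V X := by
  unfold gi
  ext
  · simp only [wd_smul_left, Prod.smul_fst, smul_eq_mul]
    ring
  · simp only [wd_smul_right, Prod.smul_snd, smul_eq_mul]
    ring

lemma gm_smul (U V : Ω × Ω) (t : Ω) (X : Ω × Ω) : gm U V (t • X) = t • gm U V X := by
  unfold gm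
  ext
  · simp only [Prod.smul_fst, Prod.smul_snd, Prod.fst_add, smul_eq_mul]
    ring
  · simp only [Prod.smul_fst, Prod.smul_snd, Prod.snd_add, smul_eq_mul]
    ring

lemma wd_gi {U V : Ω × Ω} (h : wd U V ≠ 0) (X Y : Ω × Ω) :
    wd (gi U V X) Y = (wd U V)⁻¹ * wd X (gm U V Y) := by
  have h1 := wd_gm U V (gi U V X) Y
  rw [gm_gi h] at h1
  rw [h1, ← mul_assoc, inv_mul_cancel₀ h, one_mul]

lemma wd_gm_left {U V : Ω × Ω} (h : wd U V ≠ 0) (X Y : Ω × Ω) :
    wd (gm U V X) Y = wd U V * wd X (gi U V Y) := by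
  have h1 := wd_gm U V X (gi U V Y)
  rwa [gm_gi h] at h1

/-- conjugation -/
noncomputable def HS.conj (S : HS Ω) (U V : Ω × Ω) (h : wd U V ≠ 0) (s : Ω) (hs : s ≠ 0) :
    HS Ω where
  F := fun X => s • gi U V (S.F (gm U V X))
  d := S.d
  hd := S.hd
  Res := S.Res - (S.d * ((S.d : ℝ) - 1)) * Real.log ‖wd U V‖ - 2 * S.d * Real.log ‖s‖
  hom := by
    intro t X
    rw [gm_smul, S.hom, gi_smul, smul_comm]
  nz := by
    intro X hX h0
    have h1 : gm U V X ≠ 0 := by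
      intro h2
      apply hX
      rw [← gi_gm h X, h2]
      unfold gi wd
      simp
    have h3 := S.nz _ h1
    apply h3
    have h4 : gi U V (S.F (gm U V X)) = 0 := (smul_eq_zero.mp h0).resolve_left hs
    rw [← gm_gi h (S.F (gm U V X)), h4]
    unfold gm
    simp
  roots := by
    intro Y hY
    have hY0 : Y ≠ 0 := by rintro rfl; simp at hY
    have hgY : gm U V Y ≠ 0 := by
      intro h2
      apply hY0
      rw [← gi_gm h Y, h2]
      unfold gi wd
      simp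
    obtain ⟨t, W, ht, hW, hWe, _⟩ := exists_unit _ hgY
    obtain ⟨c, η, hc, hη, hr, hR⟩ := S.roots W hW
    have hη0 : ∀ l, gi U V (η l) ≠ 0 := by
      intro l h0
      have h1 : η l = 0 := by
        rw [← gm_gi h (η l), h0]
        unfold gm
        simp
      have := hη l
      rw [h1] at this
      simp at this
    have hF : ∀ l, ‖s • gi U V (S.F (gm U V (gi U V (η l))))‖ = ‖s‖ * (‖S.F (η l)‖ * ‖t‖⁻¹) := by
      intro l
      obtain ⟨lam, hlam⟩ := HS.rs_root (S := S) ⟨hc, hη, hr, hR⟩ hW l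
      have h1 : gi U V W = t⁻¹ • Y := by
        have h2 : W = t⁻¹ • gm U V Y := by rw [hWe, smul_smul, inv_mul_cancel₀ ht, one_smul]
        rw [h2, gi_smul, gi_gm h]
      rw [gm_gi h, hlam, gi_smul, h1, norm_smul, norm_smul, norm_smul, norm_smul, norm_inv, hY,
        hW]
      ring
    obtain ⟨c', η', h1, h2, h3, h4⟩ := norm_roots (fun X => s • gi U V (S.F (gm U V X))) S.d (by
      intro t X
      rw [gm_smul, S.hom, gi_smul, smul_comm]) Y (s * (wd U V)⁻¹ * t * c * (wd U V) ^ S.d)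
      (fun l => gi U V (η l))
      (mul_ne_zero (mul_ne_zero (mul_ne_zero (mul_ne_zero hs (inv_ne_zero h)) ht) hc)
        (pow_ne_zero _ h)) hη0 (by
      intro X
      rw [wd_smul_left, wd_gi h, hWe, wd_smul_right, hr]
      have h5 : ∏ l, wd (gm U V X) (η l) = (wd U V) ^ S.d * ∏ l, wd X (gi U V (η l)) := by
        have h6 : ∏ _l : Fin S.d, wd U V = (wd U V) ^ S.d := by
          rw [Finset.prod_const, Finset.card_univ, Fintype.card_fin]
        rw [← h6, ← Finset.prod_mul_distrib]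
        apply Finset.prod_congr rfl
        intro l _
        exact wd_gm_left h X (η l)
      rw [h5]
      ring)
    refine ⟨c', η', h1, h2, h3, ?_⟩
    rw [h4]
    simp_rw [hF]
    have hs' : 0 < ‖s‖ := norm_pos_iff.mpr hs
    have hw' : 0 < ‖wd U V‖ := norm_pos_iff.mpr h
    have ht' : ‖t‖ ≠ 0 := norm_ne_zero_iff.mpr ht
    rw [Finset.prod_mul_distrib, Finset.prod_mul_distrib, Finset.prod_const, Finset.prod_const,
      Finset.card_univ, Fintype.card_fin, norm_mul, norm_mul, norm_mul, norm_mul, norm_inv,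
      norm_pow]
    have e1 : Real.exp (-(S.Res - (S.d * ((S.d : ℝ) - 1)) * Real.log ‖wd U V‖ -
        2 * S.d * Real.log ‖s‖)) =
        Real.exp (-S.Res) * (‖wd U V‖ ^ (S.d * (S.d - 1))) * ‖s‖ ^ (2 * S.d) := by
      have e2 : ‖wd U V‖ ^ (S.d * (S.d - 1)) =
          Real.exp (((S.d * (S.d - 1) : ℕ) : ℝ) * Real.log ‖wd U V‖) := by
        rw [Real.exp_nat_mul, Real.exp_log hw']
      have e3 : ‖s‖ ^ (2 * S.d) = Real.exp (((2 * S.d : ℕ) : ℝ) * Real.log ‖s‖) := by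
        rw [Real.exp_nat_mul, Real.exp_log hs']
      rw [e2, e3, ← Real.exp_add, ← Real.exp_add]
      congr 1
      have hd := S.hd
      push_cast [Nat.cast_sub hd]
      ring
    rw [e1, ← hR]
    have hdd : S.d * S.d = S.d * (S.d - 1) + S.d := by
      have hd := S.hd
      obtain ⟨e, he⟩ : ∃ e, S.d = e + 1 := ⟨S.d - 1, by omega⟩
      rw [he]
      simp only [Nat.add_sub_cancel]
      ring
    have e4 : (‖wd U V‖ ^ S.d) ^ S.d = ‖wd U V‖ ^ (S.d * (S.d - 1)) * ‖wd U V‖ ^ S.d := by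
      rw [← pow_mul, hdd, pow_add]
    rw [mul_pow, mul_pow, mul_pow, mul_pow, e4, inv_pow, inv_pow, two_mul, pow_add]
    field_simp

end Pool.Agent.V7H78.RP.UH
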