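import Pool.Agent.V7H78.RP.UH.L5

/-!
# The lower bound for the diagonal Green function
-/

namespace Pool.Agent.V7H78.RP.UH

open Pool.Agent.V7H78.RP.UG Finset

variable {Ω : Type*} [NormedField Ω] [IsUltrametricDist Ω]

lemma seq_special (B : Fam Ω) (H : HS Ω) (E : Finset ℕ) :
    ∃ φ : ℕ → ℕ, (∀ m, φ m ∉ E) ∧ (∀ m n, m ≠ n → φ m ≠ φ n) ∧
      ∀ m n, m ≠ n → ‖wd (H.F (B.b (φ m))) (B.b (φ n))‖ = H.gs := by
  classical
  obtain ⟨E1, hE1⟩ := HS.target_generic (S := H) B
  obtain ⟨E2, hE2⟩ := HS.gs_attained (S := H) B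
  have hx : ∀ x, x ∉ E ∪ E1 ∪ E2 → ∃ Ex : Finset ℕ, ∀ j, j ∉ Ex →
      ‖wd (H.F (B.b x)) (B.b j)‖ = H.gs ∧ ‖wd (H.F (B.b j)) (B.b x)‖ = H.gs := by
    intro x hx
    simp only [Finset.mem_union, not_or] at hx
    obtain ⟨⟨_, hx1⟩, hx2⟩ := hx
    have hbx : B.b x ≠ 0 := by
      intro h0
      have := B.unit x
      rw [h0] at this
      simp at this
    obtain ⟨t, W, ht, hW, hWe, htn⟩ := exists_unit (H.F (B.b x)) (H.nz _ hbx)
    obtain ⟨A1, hA1⟩ := bad_finite B {W} (by
      intro U hU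
      rw [Finset.mem_singleton] at hU
      rw [hU]
      exact hW)
    obtain ⟨c, η, hc⟩ := H.roots (B.b x) (B.unit x)
    have hc' : H.IsRS (B.b x) c η := hc
    obtain ⟨A2, hA2⟩ := HS.rs_attained B hc'
    refine ⟨A1 ∪ A2, fun j hj => ?_⟩
    rw [Finset.mem_union, not_or] at hj
    constructor
    · rw [hWe, wd_smul_left, norm_mul, wd_comm, norm_neg, hA1 j hj.1 W (Finset.mem_singleton_self W),
        mul_one, htn]
      exact hE2 x hx2
    · rw [hA2 j hj.2]
      exact hE1 x hx1 c η hc'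
  choose! Ex hEx using hx
  obtain ⟨f, h1, h2⟩ := exists_seq_of_forall_finset_exists (fun i : ℕ => i ∉ E ∪ E1 ∪ E2)
    (fun i j => i ≠ j ∧ ‖wd (H.F (B.b i)) (B.b j)‖ = H.gs ∧
      ‖wd (H.F (B.b j)) (B.b i)‖ = H.gs) (by
      intro s hs
      obtain ⟨y, hy⟩ := Infinite.exists_notMem_finset ((E ∪ E1 ∪ E2) ∪ s ∪ s.biUnion Ex)
      rw [Finset.mem_union, not_or, Finset.mem_union, not_or] at hy
      refine ⟨y, hy.1.1, fun x hx => ⟨fun h => hy.1.2 (h ▸ hx), ?_⟩⟩
      apply hEx x (hs x hx)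
      intro h
      exact hy.2 (Finset.mem_biUnion.mpr ⟨x, hx, h⟩))
  refine ⟨f, ?_, ?_, ?_⟩
  · intro m h
    apply h1 m
    rw [Finset.mem_union, Finset.mem_union]
    exact Or.inl (Or.inl h)
  · intro m n hmn
    rcases lt_or_gt_of_ne hmn with h | h
    · exact (h2 m n h).1
    · exact (h2 n m h).1.symm
  · intro m n hmn
    rcases lt_or_gt_of_ne hmn with h | h
    · exact (h2 m n h).2.1
    · exact (h2 n m h).2.2

/-- **Lemma K** in raw form. -/
theorem lemmaK_raw (B : Fam Ω) (S : HS Ω) (hgs : S.gs = 1) (n : ℕ) (c : ℝ) (hc0 : 0 ≤ c) :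
    0 ≤ S.Res - 2 * (c / (S.iter (n + 1)).d) * ((S.iter n).d * S.Res +
        S.d * (Real.log (S.iter (n + 1)).gs - Real.log (S.iter n).gs)) +
      (c / (S.iter (n + 1)).d) ^ 2 * ((S.iter (n + 1)).Res +
        2 * (S.iter (n + 1)).d * Real.log (S.iter (n + 1)).gs) := by
  classical
  set H := S.iter (n + 1) with hH
  set H' := S.iter n with hH'
  have hHF : ∀ X, H.F X = H'.F (S.F X) := fun X => rfl
  set d : ℝ := (S.d : ℝ) with hd
  set D : ℝ := (H.d : ℝ) with hD
  set D' : ℝ := (H'.d : ℝ) with hD'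
  have hDpos : 0 < D := by rw [hD]; exact_mod_cast H.hd
  set g := H.gs with hg
  set g' := H'.gs with hg'
  have hg'pos : 0 < g' := HS.gs_pos
  obtain ⟨E1, hE1⟩ := HS.target_generic (S := S) B
  obtain ⟨E2, hE2⟩ := HS.target_generic (S := H) B
  obtain ⟨φ, hφ, hφi, hφw⟩ := seq_special B H' (E1 ∪ E2)
  have hφ1 : ∀ m, φ m ∉ E1 := fun m h => hφ m (Finset.mem_union_left _ h)
  have hφ2 : ∀ m, φ m ∉ E2 := fun m h => hφ m (Finset.mem_union_right _ h)
  choose c₁ η hη using fun m => S.roots (B.b (φ m)) (B.unit _)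
  have hη' : ∀ m, S.IsRS (B.b (φ m)) (c₁ m) (η m) := fun m => hη m
  choose c₂ θ hθ using fun m => H.roots (B.b (φ m)) (B.unit _)
  have hθ' : ∀ m, H.IsRS (B.b (φ m)) (c₂ m) (θ m) := fun m => hθ m
  have hc₁ : ∀ m, ‖c₁ m‖ = 1 := fun m => (hE1 _ (hφ1 m) _ _ (hη' m)).trans hgs
  have hc₂ : ∀ m, ‖c₂ m‖ = g := fun m => hE2 _ (hφ2 m) _ _ (hθ' m)
  have hRes0 : 0 ≤ S.Res := by
    have h1 := HS.lower B hgs.le (norm_e1 (Ω := Ω))
    have h2 := HS.le_gs (S := S) (norm_e1 (Ω := Ω)).le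
    rw [hgs] at h2
    have h3 := h1.trans h2
    have h4 : Real.exp (-S.Res) ≤ Real.exp 0 := by rwa [Real.exp_zero]
    have := Real.exp_le_exp.mp h4
    linarith
  set T : ℝ := D' * S.Res + |Real.log g'| + |Real.log g| with hT
  have hT0 : 0 ≤ T := by
    have : 0 ≤ D' := by rw [hD']; exact Nat.cast_nonneg _
    positivity
  -- the value of wd (H η) Y'
  have hval : ∀ m m', m ≠ m' → ∀ l, ‖wd (H.F (η m l)) (B.b (φ m'))‖ =
      ‖S.F (η m l)‖ ^ H'.d * g' := by
    intro m m' hmm l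
    obtain ⟨t, ht⟩ := HS.rs_root (hη' m) (B.unit _) l
    rw [hHF, ht, H'.hom, wd_smul_left, norm_mul, norm_pow, norm_smul, B.unit, mul_one,
      hφw m m' hmm]
  have hvalpos : ∀ m m', m ≠ m' → ∀ l, 0 < ‖wd (H.F (η m l)) (B.b (φ m'))‖ := by
    intro m m' hmm l
    rw [hval m m' hmm l]
    exact mul_pos (pow_pos (HS.F_pos _ ((hη' m).2.1 l)) _) hg'pos
  have hlog : ∀ m m', m ≠ m' → ∀ l, -Real.log ‖wd (H.F (η m l)) (B.b (φ m'))‖ =
      D' * (-Real.log ‖S.F (η m l)‖) - Real.log g' := by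
    intro m m' hmm l
    rw [hval m m' hmm l, Real.log_mul (pow_pos (HS.F_pos _ ((hη' m).2.1 l)) _).ne' hg'pos.ne',
      Real.log_pow]
    rw [hD']
    ring
  set X : ℝ := D' * S.Res + d * (Real.log g - Real.log g') with hX
  have hηθ : ∀ m m', m ≠ m' → ∑ l, ∑ l', kw T (η m l) (θ m' l') = X := by
    intro m m' hmm
    have h1 : ∀ l, ∑ l', kw T (η m l) (θ m' l') =
        D' * (-Real.log ‖S.F (η m l)‖) - Real.log g' + Real.log g := by
      intro l
      have h2 := HS.sum_kw_eq (hθ' m') ((hη' m).2.1 l) (hvalpos m m' hmm l) T (by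
        rw [hlog m m' hmm l, hc₂]
        have h3 : -Real.log ‖S.F (η m l)‖ ≤ S.Res := by
          have h4 := HS.lower B hgs.le ((hη' m).2.1 l)
          have h5 := Real.log_le_log (Real.exp_pos _) h4
          rw [Real.log_exp] at h5
          linarith
        have h6 : D' * (-Real.log ‖S.F (η m l)‖) ≤ D' * S.Res :=
          mul_le_mul_of_nonneg_left h3 (by rw [hD']; exact Nat.cast_nonneg _)
        have h7 := neg_abs_le (Real.log g')
        have h8 := le_abs_self (Real.log g)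
        have h9 := le_abs_self (Real.log g')
        linarith)
      rw [h2, hlog m m' hmm l, hc₂]
    simp_rw [h1]
    rw [Finset.sum_add_distrib, Finset.sum_sub_distrib, ← Finset.mul_sum, HS.sum_log_F (hη' m),
      hc₁, Real.log_one, Finset.sum_const, Finset.sum_const, Finset.card_univ, Fintype.card_fin,
      nsmul_eq_mul, nsmul_eq_mul, hX]
    ring
  set Z : ℝ := S.Res - 2 * (c / D) * X + (c / D) ^ 2 * (H.Res + 2 * D * Real.log g) with hZ
  have key : ∀ M : ℕ, 0 < M → -Z ≤ 0 + (T * d ^ 2 + c ^ 2 * T - Z) / M := by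
    intro M hM
    have hMpos : (0 : ℝ) < M := by exact_mod_cast hM
    have hcD : 0 ≤ c / D := by positivity
    have h1 := kw_psd T hT0 (Sum.elim (fun q : Fin M × Fin S.d => η q.1.1 q.2)
      (fun q : Fin M × Fin H.d => θ q.1.1 q.2)) (by
      rintro (q | q)
      · exact (hη' _).2.1 _
      · exact (hθ' _).2.1 _)
      (Sum.elim (fun _ => 1) (fun _ => -(c / D)))
    simp only [Fintype.sum_sum_type, Sum.elim_inl, Sum.elim_inr] at h1
    have hηη : ∑ q : Fin M × Fin S.d, ∑ q' : Fin M × Fin S.d,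
        kw T (η q.1.1 q.2) (η q'.1.1 q'.2) ≤ M * (M - 1) * S.Res + M * (d ^ 2 * T) := by
      have h2 : ∀ m m' : Fin M, ∑ l, ∑ l', kw T (η m.1 l) (η m'.1 l') ≤
          S.Res + if m = m' then (d ^ 2 * T - S.Res) else 0 := by
        intro m m'
        by_cases hmm : m = m'
        · rw [if_pos hmm]
          have : ∑ l, ∑ l', kw T (η m.1 l) (η m'.1 l') ≤ d ^ 2 * T := by
            refine (Finset.sum_le_sum fun l _ => Finset.sum_le_sum fun l' _ =>
              kw_le T _ _).trans (le_of_eq ?_)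
            simp only [Finset.sum_const, Finset.card_univ, Fintype.card_fin, nsmul_eq_mul]
            rw [← hd]
            ring
          linarith
        · rw [if_neg hmm, add_zero]
          have hne : φ m.1 ≠ φ m'.1 := hφi _ _ fun h => hmm (Fin.ext h)
          have h3 := HS.block_le 1 (hη' m.1) (hη' m'.1) (B.unit _) (B.sep _ _ hne) (hc₁ _)
            (hc₁ _) T
          rw [Real.log_one, mul_zero, add_zero] at h3
          exact h3
      have h3 : ∑ q : Fin M × Fin S.d, ∑ q' : Fin M × Fin S.d,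
          kw T (η q.1.1 q.2) (η q'.1.1 q'.2) =
          ∑ m : Fin M, ∑ m' : Fin M, ∑ l, ∑ l', kw T (η m.1 l) (η m'.1 l') := by
        rw [Fintype.sum_prod_type]
        apply Finset.sum_congr rfl
        intro m _
        simp_rw [Fintype.sum_prod_type]
        rw [Finset.sum_comm]
      rw [h3]
      refine (Finset.sum_le_sum fun m _ => Finset.sum_le_sum fun m' _ => h2 m m').trans
        (le_of_eq ?_)
      simp only [Finset.sum_add_distrib, Finset.sum_ite_eq, Finset.mem_univ, if_true,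
        Finset.sum_const, Finset.card_univ, Fintype.card_fin, nsmul_eq_mul]
      ring
    have hθθ : ∑ q : Fin M × Fin H.d, ∑ q' : Fin M × Fin H.d,
        kw T (θ q.1.1 q.2) (θ q'.1.1 q'.2) ≤
        M * (M - 1) * (H.Res + 2 * D * Real.log g) + M * (D ^ 2 * T) := by
      have h2 : ∀ m m' : Fin M, ∑ l, ∑ l', kw T (θ m.1 l) (θ m'.1 l') ≤
          (H.Res + 2 * D * Real.log g) +
          if m = m' then (D ^ 2 * T - (H.Res + 2 * D * Real.log g)) else 0 := by
        intro m m'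
        by_cases hmm : m = m'
        · rw [if_pos hmm]
          have : ∑ l, ∑ l', kw T (θ m.1 l) (θ m'.1 l') ≤ D ^ 2 * T := by
            refine (Finset.sum_le_sum fun l _ => Finset.sum_le_sum fun l' _ =>
              kw_le T _ _).trans (le_of_eq ?_)
            simp only [Finset.sum_const, Finset.card_univ, Fintype.card_fin, nsmul_eq_mul]
            rw [← hD]
            ring
          linarith
        · rw [if_neg hmm, add_zero]
          have hne : φ m.1 ≠ φ m'.1 := hφi _ _ fun h => hmm (Fin.ext h)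
          exact HS.block_le g (hθ' m.1) (hθ' m'.1) (B.unit _) (B.sep _ _ hne) (hc₂ _) (hc₂ _) T
      have h3 : ∑ q : Fin M × Fin H.d, ∑ q' : Fin M × Fin H.d,
          kw T (θ q.1.1 q.2) (θ q'.1.1 q'.2) =
          ∑ m : Fin M, ∑ m' : Fin M, ∑ l, ∑ l', kw T (θ m.1 l) (θ m'.1 l') := by
        rw [Fintype.sum_prod_type]
        apply Finset.sum_congr rfl
        intro m _
        simp_rw [Fintype.sum_prod_type]
        rw [Finset.sum_comm]
      rw [h3]
      refine (Finset.sum_le_sum fun m _ => Finset.sum_le_sum fun m' _ => h2 m m').trans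
        (le_of_eq ?_)
      simp only [Finset.sum_add_distrib, Finset.sum_ite_eq, Finset.mem_univ, if_true,
        Finset.sum_const, Finset.card_univ, Fintype.card_fin, nsmul_eq_mul]
      ring
    have hcr : M * (M - 1) * X ≤ ∑ q : Fin M × Fin S.d, ∑ q' : Fin M × Fin H.d,
        kw T (η q.1.1 q.2) (θ q'.1.1 q'.2) := by
      have h2 : ∀ m m' : Fin M, X - (if m = m' then X else 0) ≤
          ∑ l, ∑ l', kw T (η m.1 l) (θ m'.1 l') := by
        intro m m'
        by_cases hmm : m = m'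
        · rw [if_pos hmm, sub_self]
          exact Finset.sum_nonneg fun l _ => Finset.sum_nonneg fun l' _ =>
            kw_nonneg hT0 ((hη' _).2.1 _) ((hθ' _).2.1 _)
        · rw [if_neg hmm, sub_zero, hηθ m.1 m'.1 fun h => hmm (Fin.ext h)]
      have h3 : ∑ q : Fin M × Fin S.d, ∑ q' : Fin M × Fin H.d,
          kw T (η q.1.1 q.2) (θ q'.1.1 q'.2) =
          ∑ m : Fin M, ∑ m' : Fin M, ∑ l, ∑ l', kw T (η m.1 l) (θ m'.1 l') := by
        rw [Fintype.sum_prod_type]
        apply Finset.sum_congr rfl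
        intro m _
        simp_rw [Fintype.sum_prod_type]
        rw [Finset.sum_comm]
      rw [h3]
      refine le_trans (le_of_eq ?_) (Finset.sum_le_sum fun m _ =>
        Finset.sum_le_sum fun m' _ => h2 m m')
      simp only [Finset.sum_sub_distrib, Finset.sum_ite_eq, Finset.mem_univ, if_true,
        Finset.sum_const, Finset.card_univ, Fintype.card_fin, nsmul_eq_mul]
      ring
    have e1 : ∑ q : Fin M × Fin S.d, (∑ q' : Fin M × Fin S.d, 1 * 1 *
          kw T (η q.1.1 q.2) (η q'.1.1 q'.2) +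
        ∑ q' : Fin M × Fin H.d, 1 * -(c / D) * kw T (η q.1.1 q.2) (θ q'.1.1 q'.2)) +
        ∑ q : Fin M × Fin H.d, (∑ q' : Fin M × Fin S.d, -(c / D) * 1 *
          kw T (θ q.1.1 q.2) (η q'.1.1 q'.2) +
        ∑ q' : Fin M × Fin H.d, -(c / D) * -(c / D) * kw T (θ q.1.1 q.2) (θ q'.1.1 q'.2)) =
        ∑ q : Fin M × Fin S.d, ∑ q' : Fin M × Fin S.d, kw T (η q.1.1 q.2) (η q'.1.1 q'.2) -
        2 * (c / D) * ∑ q : Fin M × Fin S.d, ∑ q' : Fin M × Fin H.d,
          kw T (η q.1.1 q.2) (θ q'.1.1 q'.2) +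
        (c / D) ^ 2 * ∑ q : Fin M × Fin H.d, ∑ q' : Fin M × Fin H.d,
          kw T (θ q.1.1 q.2) (θ q'.1.1 q'.2) := by
      have a1 : ∑ q : Fin M × Fin H.d, ∑ q' : Fin M × Fin S.d, -(c / D) * 1 *
          kw T (θ q.1.1 q.2) (η q'.1.1 q'.2) = -(c / D) * ∑ q : Fin M × Fin S.d,
          ∑ q' : Fin M × Fin H.d, kw T (η q.1.1 q.2) (θ q'.1.1 q'.2) := by
        rw [Finset.sum_comm, Finset.mul_sum]
        apply Finset.sum_congr rfl
        intro i _
        rw [Finset.mul_sum]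
        apply Finset.sum_congr rfl
        intro j _
        rw [kw_symm T (θ j.1.1 j.2), mul_one]
      rw [Finset.sum_add_distrib, Finset.sum_add_distrib, a1]
      simp_rw [← Finset.mul_sum]
      ring
    rw [e1] at h1
    have h2 := mul_le_mul_of_nonneg_left hcr (by positivity : 0 ≤ 2 * (c / D))
    have h3 := mul_le_mul_of_nonneg_left hθθ (sq_nonneg (c / D))
    have h4 : 0 ≤ (M * (M - 1) * S.Res + M * (d ^ 2 * T)) - 2 * (c / D) * (M * (M - 1) * X) +
        (c / D) ^ 2 * (M * (M - 1) * (H.Res + 2 * D * Real.log g) + M * (D ^ 2 * T)) := by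
      linarith
    have h5 : (M * (M - 1) * S.Res + M * (d ^ 2 * T)) - 2 * (c / D) * (M * (M - 1) * X) +
        (c / D) ^ 2 * (M * (M - 1) * (H.Res + 2 * D * Real.log g) + M * (D ^ 2 * T)) =
        (M : ℝ) ^ 2 * (Z + (T * d ^ 2 + c ^ 2 * T - Z) / M) := by
      rw [hZ]
      field_simp
      ring
    rw [h5] at h4
    have h6 : 0 ≤ Z + (T * d ^ 2 + c ^ 2 * T - Z) / M := by
      by_contra hcon
      push Not at hcon
      have := mul_neg_of_pos_of_neg (pow_pos hMpos 2) hcon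
      linarith
    linarith
  have := Sys.limit_le key
  linarith

end Pool.Agent.V7H78.RP.UH
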