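import Pool.Agent.V7H78.RP.UH.L6

/-!
# The lower bound for close pairs
-/

namespace Pool.Agent.V7H78.RP.UH

open Pool.Agent.V7H78.RP.UG Finset

variable {Ω : Type*} [NormedField Ω] [IsUltrametricDist Ω]

namespace HS

variable {S : HS Ω}

lemma norm_F_le (X : Ω × Ω) : ‖S.F X‖ ≤ S.gs * ‖X‖ ^ S.d := by
  by_cases hX : X = 0
  · have : S.F X = 0 := by
      have h1 := S.hom 0 X
      rw [zero_smul, zero_pow (by have := S.hd; omega), zero_smul] at h1
      rw [hX]
      exact h1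
    rw [this, norm_zero]
    exact mul_nonneg gs_pos.le (pow_nonneg (norm_nonneg _) _)
  · obtain ⟨t, W, ht, hW, hWe, htn⟩ := exists_unit X hX
    rw [hWe, S.hom, norm_smul, norm_smul, hW, mul_one, norm_pow, mul_comm]
    exact mul_le_mul_of_nonneg_right (le_gs hW.le) (pow_nonneg (norm_nonneg _) _)

lemma Res_nonneg (B : Fam Ω) (hgs : S.gs ≤ 1) : 0 ≤ S.Res := by
  have h1 := HS.lower B hgs (norm_e1 (Ω := Ω))
  have h2 := (HS.le_gs (S := S) (norm_e1 (Ω := Ω)).le).trans hgs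
  have h3 := h1.trans h2
  have h4 : Real.exp (-S.Res) ≤ Real.exp 0 := by rwa [Real.exp_zero]
  have := Real.exp_le_exp.mp h4
  linarith

lemma norm_F_ge (B : Fam Ω) (hgs : S.gs ≤ 1) (X : Ω × Ω) :
    Real.exp (-S.Res) * ‖X‖ ^ S.d ≤ ‖S.F X‖ := by
  by_cases hX : X = 0
  · rw [hX, norm_zero, zero_pow (by have := S.hd; omega), mul_zero]
    exact norm_nonneg _
  · obtain ⟨t, W, ht, hW, hWe, htn⟩ := exists_unit X hX
    rw [hWe, S.hom, norm_smul, norm_smul, hW, mul_one, norm_pow, mul_comm]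
    exact mul_le_mul_of_nonneg_left (HS.lower B hgs hW) (pow_nonneg (norm_nonneg _) _)

lemma gs_iter_succ (B : Fam Ω) (hgs : S.gs ≤ 1) (n : ℕ) :
    Real.exp (-S.Res) * (S.iter n).gs ^ S.d ≤ (S.iter (n + 1)).gs := by
  obtain ⟨E, hE⟩ := gs_attained (S := S.iter n) B
  obtain ⟨i, hi⟩ := Infinite.exists_notMem_finset E
  rw [← hE i hi]
  refine (norm_F_ge B hgs _).trans ?_
  have h1 : S.F ((S.iter n).F (B.b i)) = (S.iter (n + 1)).F (B.b i) := by
    rw [iter_F, iter_F, Function.iterate_succ_apply']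
  rw [h1]
  exact le_gs (B.unit i).le

/-- **Lemma K**. -/
lemma lemmaK (B : Fam Ω) (hgs : S.gs = 1) (hd2 : 2 ≤ S.d) (n : ℕ) :
    2 * (-Real.log (S.iter (n + 1)).gs) / (S.d : ℝ) ^ (n + 1) ≤
      (1 - ((S.d : ℝ) - 1) / (2 * (S.d + 1))) * (S.Res / (S.d * (S.d - 1))) +
        S.Res / (S.d : ℝ) ^ (n + 1) := by
  have h1 := lemmaK_raw B S hgs n (S.d + 1) (by positivity)
  have h2 := gs_iter_succ B hgs.le n
  have hgn := gs_pos (S := S.iter n)
  have hgn1 := gs_pos (S := S.iter (n + 1))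
  have h3 := Real.log_le_log (mul_pos (Real.exp_pos _) (pow_pos hgn _)) h2
  rw [Real.log_mul (Real.exp_pos _).ne' (pow_pos hgn _).ne', Real.log_exp, Real.log_pow] at h3
  have hd : (2 : ℝ) ≤ S.d := by exact_mod_cast hd2
  have hR := Res_nonneg B hgs.le
  set d : ℝ := (S.d : ℝ) with hdd
  rw [iter_d, iter_d] at h1
  push_cast at h1
  rw [← hdd] at h1
  have h4 := iter_Res S (n + 1)
  rw [← hdd] at h4
  set R := S.Res with hRdef
  set a := Real.log (S.iter (n + 1)).gs with ha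
  set b := Real.log (S.iter n).gs with hb
  set P : ℝ := d ^ (n + 1) with hP
  have hPpos : 0 < P := by positivity
  have hPn : d ^ n = P / d := by
    rw [hP, pow_succ]
    field_simp
  rw [hPn] at h1
  have hdd1 : 0 < d * (d - 1) := by nlinarith
  have h5 : (S.iter (n + 1)).Res = R * (P * (P - 1)) / (d * (d - 1)) := by
    rw [eq_div_iff hdd1.ne']
    exact h4
  rw [h5] at h1
  -- combine
  have h6 : (d + 1) / P * (P / d * R + d * (a - b)) ≥
      (d + 1) * (R / d) + (d + 1) / P * ((d - 1) * a - R) := by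
    have e1 : (d + 1) / P * (P / d * R + d * (a - b)) =
        (d + 1) * (R / d) + (d + 1) / P * (d * a - d * b) := by
      field_simp
    rw [e1]
    have : (d - 1) * a - R ≤ d * a - d * b := by linarith
    have h7 : 0 ≤ (d + 1) / P := by positivity
    nlinarith [mul_le_mul_of_nonneg_left this h7]
  have h7 : ((d + 1) / P) ^ 2 * (R * (P * (P - 1)) / (d * (d - 1)) + 2 * P * a) ≤
      (d + 1) ^ 2 * (R / (d * (d - 1)) + 2 * a / P) := by
    have e1 : ((d + 1) / P) ^ 2 * (R * (P * (P - 1)) / (d * (d - 1)) + 2 * P * a) =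
        (d + 1) ^ 2 * (R / (d * (d - 1)) * ((P - 1) / P) + 2 * a / P) := by
      field_simp
    rw [e1]
    apply mul_le_mul_of_nonneg_left _ (sq_nonneg _)
    have h8 : (P - 1) / P ≤ 1 := by
      rw [div_le_one hPpos]
      linarith
    have h9 : 0 ≤ R / (d * (d - 1)) := div_nonneg hR hdd1.le
    nlinarith
  have h8 : 0 ≤ R - 2 * ((d + 1) * (R / d) + (d + 1) / P * ((d - 1) * a - R)) +
      (d + 1) ^ 2 * (R / (d * (d - 1)) + 2 * a / P) := by linarith
  have h9 : R - 2 * ((d + 1) * (R / d) + (d + 1) / P * ((d - 1) * a - R)) +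
      (d + 1) ^ 2 * (R / (d * (d - 1)) + 2 * a / P) =
      2 * (d + 1) * ((1 - (d - 1) / (2 * (d + 1))) * (R / (d * (d - 1))) + R / P -
        2 * (-a) / P) := by
    have hd1 : d - 1 ≠ 0 := by linarith
    have hd0 : d ≠ 0 := by linarith
    have hd2' : d + 1 ≠ 0 := by linarith
    field_simp
    ring
  rw [h9] at h8
  have h10 : 0 ≤ (1 - (d - 1) / (2 * (d + 1))) * (R / (d * (d - 1))) + R / P - 2 * (-a) / P := by
    by_contra hcon
    push Not at hcon
    have := mul_neg_of_pos_of_neg (by positivity : (0 : ℝ) < 2 * (d + 1)) hcon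
    linarith
  linarith

lemma iter_le (hgs : S.gs = 1) (j : ℕ) (V : Ω × Ω) : ‖S.F^[j] V‖ ≤ ‖V‖ ^ S.d ^ j := by
  induction j with
  | zero => simp
  | succ j ih =>
    rw [Function.iterate_succ_apply']
    refine (norm_F_le _).trans ?_
    rw [hgs, one_mul, pow_succ, pow_mul]
    exact pow_le_pow_left₀ (norm_nonneg _) ih _

lemma conj_iter {U V : Ω × Ω} (h : wd U V ≠ 0) {s : Ω} (hs : s ≠ 0) (n : ℕ) (X : Ω × Ω) :
    (S.conj U V h s hs).F^[n] X =
      s ^ (∑ i ∈ Finset.range n, S.d ^ i) • gi U V (S.F^[n] (gm U V X)) := by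
  induction n with
  | zero => simp [gi_gm h]
  | succ n ih =>
    rw [Function.iterate_succ_apply', ih]
    show s • gi U V (S.F (gm U V (_ • gi U V _))) = _
    rw [gm_smul, gm_gi h, S.hom, gi_smul, smul_smul, Function.iterate_succ_apply']
    congr 1
    rw [Finset.sum_range_succ', ← pow_mul, pow_zero, pow_succ, mul_comm s]
    congr 2
    rw [Finset.sum_mul]
    apply Finset.sum_congr rfl
    intro i _
    rw [pow_succ]

lemma norm_gi_le {U V : Ω × Ω} (hU : ‖U‖ = 1) (hV : ‖V‖ = 1) (X : Ω × Ω) :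
    ‖gi U V X‖ ≤ ‖wd U V‖⁻¹ * ‖X‖ := by
  unfold gi
  rw [Prod.norm_def]
  have h0 : 0 ≤ ‖wd U V‖⁻¹ := inv_nonneg.mpr (norm_nonneg _)
  apply max_le
  · simp only [norm_mul, norm_inv]
    apply mul_le_mul_of_nonneg_left _ h0
    refine (norm_wd_le _ _).trans ?_
    rw [hV, mul_one]
  · simp only [norm_mul, norm_inv]
    apply mul_le_mul_of_nonneg_left _ h0
    refine (norm_wd_le _ _).trans ?_
    rw [hU, one_mul]

/-- **Close pairs.** -/
theorem close_pair (B : Fam Ω) (hgs : S.gs = 1) (hd2 : 2 ≤ S.d) (J : ℕ) {c₁ c₂ : Ω}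
    {η₁ η₂ : Fin (S.iter J).d → Ω × Ω} (h₁ : (S.iter J).IsRS (0, 1) c₁ η₁)
    (h₂ : (S.iter J).IsRS (1, 0) c₂ η₂) {X X' : Ω × Ω} (hX : ‖X‖ = 1) (hX' : ‖X'‖ = 1)
    (hw : wd X X' ≠ 0) (hr₁ : ∀ l, ‖wd X X'‖ ≤ ‖wd X (η₁ l)‖)
    (hr₂ : ∀ l, ‖wd X X'‖ ≤ ‖wd X (η₂ l)‖) (s : Ω) (hs : s ≠ 0)
    (hgs' : (S.conj X X' hw s hs).gs = 1) (hmin : S.Res ≤ (S.conj X X' hw s hs).Res)
    (A AJ : ℝ) (hA : (S.d : ℝ) ^ J * A = -Real.log ‖S.F^[J] X‖ + AJ)
    (hAJ : AJ ≤ S.Res / (S.d - 1)) :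
    ((S.d : ℝ) - 1) / (2 * (S.d + 1)) * (S.Res / (S.d * (S.d - 1))) -
      2 * S.Res / ((S.d - 1) * (S.d : ℝ) ^ J) ≤
      -Real.log ‖wd X X'‖ - 2 * A + S.Res / (S.d * (S.d - 1)) := by
  set S' := S.conj X X' hw s hs with hS'
  have hd : (2 : ℝ) ≤ S.d := by exact_mod_cast hd2
  set d : ℝ := (S.d : ℝ) with hdd
  set w := Real.log ‖wd X X'‖ with hwdef
  set sg := Real.log ‖s‖ with hsg
  have hwpos : 0 < ‖wd X X'‖ := norm_pos_iff.mpr hw
  have hR' : S'.Res = S.Res - (d * (d - 1)) * w - 2 * d * sg := rfl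
  have hd' : S'.d = S.d := rfl
  set f := ‖S.F^[J] X‖ with hf
  have hfpos : 0 < f := by
    rw [hf, ← iter_F]
    exact F_pos _ hX
  -- step 1
  have step1 : ∀ U : Ω × Ω, ‖U‖ ≤ 1 → ‖S.F^[J] (gm X X' U)‖ ≤ f := by
    intro U hU
    have hcomp : ∀ (Y : Ω × Ω) (c : Ω) (η : Fin (S.iter J).d → Ω × Ω),
        (S.iter J).IsRS Y c η → (∀ l, ‖wd X X'‖ ≤ ‖wd X (η l)‖) →
        ‖wd ((S.iter J).F (gm X X' U)) Y‖ ≤ ‖wd ((S.iter J).F X) Y‖ := by
      intro Y c η h hr
      rw [rs_ord h, rs_ord h]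
      apply mul_le_mul_of_nonneg_left _ (norm_nonneg _)
      apply Finset.prod_le_prod
      · intro l _; exact norm_nonneg _
      · intro l _
        have e1 : wd (gm X X' U) (η l) = U.1 * wd X (η l) + U.2 * wd X' (η l) := by
          unfold gm
          rw [wd_add_left, wd_smul_left, wd_smul_left]
        have e2 : ‖wd X' (η l)‖ ≤ ‖wd X (η l)‖ := by
          have h3 := wd_ultra hX' (h.2.1 l) hX
          refine h3.trans (max_le ?_ le_rfl)
          rw [wd_comm, norm_neg]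
          exact hr l
        rw [e1]
        have e3 : ‖U.1 * wd X (η l) + U.2 * wd X' (η l)‖ ≤
            max ‖U.1 * wd X (η l)‖ ‖U.2 * wd X' (η l)‖ := by
          have := tri (U.1 * wd X (η l)) 0 (-(U.2 * wd X' (η l)))
          simpa using this
        refine e3.trans (max_le ?_ ?_)
        · rw [norm_mul]
          calc ‖U.1‖ * ‖wd X (η l)‖ ≤ 1 * ‖wd X (η l)‖ :=
                mul_le_mul_of_nonneg_right ((norm_fst_le U).trans hU) (norm_nonneg _)
            _ = _ := one_mul _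
        · rw [norm_mul]
          calc ‖U.2‖ * ‖wd X' (η l)‖ ≤ 1 * ‖wd X (η l)‖ :=
                mul_le_mul ((norm_snd_le U).trans hU) e2 (norm_nonneg _) zero_le_one
            _ = _ := one_mul _
    rw [hf, ← iter_F, norm_eq_of_e ((S.iter J).F (gm X X' U)), norm_eq_of_e ((S.iter J).F X)]
    exact max_le_max (hcomp _ _ _ h₁ hr₁) (hcomp _ _ _ h₂ hr₂)
  -- step 2, 3
  have step3 : ∀ M : ℕ, (S'.iter (J + M)).gs ≤
      ‖s‖ ^ (∑ i ∈ Finset.range (J + M), S.d ^ i) * (‖wd X X'‖⁻¹ * f ^ S.d ^ M) := by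
    intro M
    obtain ⟨E, hE⟩ := gs_attained (S := S'.iter (J + M)) B
    obtain ⟨i, hi⟩ := Infinite.exists_notMem_finset E
    rw [← hE i hi, iter_F, hS', conj_iter hw hs, norm_smul, norm_pow]
    apply mul_le_mul_of_nonneg_left _ (pow_nonneg (norm_nonneg _) _)
    refine (norm_gi_le hX hX' _).trans ?_
    apply mul_le_mul_of_nonneg_left _ (inv_nonneg.mpr (norm_nonneg _))
    rw [add_comm J M, Function.iterate_add_apply]
    refine (iter_le hgs M _).trans ?_
    exact pow_le_pow_left₀ (norm_nonneg _) (step1 _ (B.unit i).le) _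
  have hspos : 0 < ‖s‖ := norm_pos_iff.mpr hs
  have hdd1 : 0 < d * (d - 1) := by nlinarith
  have hd1 : 0 < d - 1 := by linarith
  set kap := (d - 1) / (2 * (d + 1)) with hkap
  -- the inequality at level J+M
  set X₀ : ℝ := -(2 / (d - 1)) * sg + 2 * A - 2 * (AJ / d ^ J) with hX₀
  set Y₀ : ℝ := (1 - kap) * (S'.Res / (d * (d - 1))) with hY₀
  set Z₀ : ℝ := S'.Res - 2 * w - 2 / (d - 1) * sg with hZ₀
  have key : ∀ M : ℕ, 0 < M → X₀ ≤ Y₀ + |Z₀| / M := by
    intro M hM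
    have hMpos : (0 : ℝ) < M := by exact_mod_cast hM
    obtain ⟨n, hn⟩ : ∃ n, J + M = n + 1 := ⟨J + M - 1, by omega⟩
    have hK := lemmaK B hgs' (by rw [hd']; exact hd2) n
    rw [← hn, hd', ← hdd, ← hkap, ← hY₀] at hK
    have h4 := step3 M
    have hgpos := gs_pos (S := S'.iter (J + M))
    have h5 := Real.log_le_log hgpos h4
    rw [Real.log_mul (pow_pos hspos _).ne' (mul_pos (inv_pos.mpr hwpos) (pow_pos hfpos _)).ne',
      Real.log_mul (inv_pos.mpr hwpos).ne' (pow_pos hfpos _).ne', Real.log_pow, Real.log_inv,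
      Real.log_pow] at h5
    have hgeom : ((∑ i ∈ Finset.range (J + M), S.d ^ i : ℕ) : ℝ) =
        (d ^ (J + M) - 1) / (d - 1) := by
      push_cast
      rw [geom_sum_eq (by linarith)]
    rw [hgeom] at h5
    push_cast at h5
    rw [← hdd, ← hwdef, ← hsg] at h5
    have hlogf : Real.log f = AJ - d ^ J * A := by linarith
    rw [hlogf] at h5
    set P := d ^ (J + M) with hP
    have hPpos : 0 < P := by positivity
    have hPJ : d ^ M = P / d ^ J := by
      rw [hP, pow_add]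
      field_simp
    rw [hPJ] at h5
    have h6 : 2 * (-((P - 1) / (d - 1) * sg + (-w + P / d ^ J * (AJ - d ^ J * A)))) / P ≤
        Y₀ + S'.Res / P := by
      refine le_trans ?_ hK
      apply div_le_div_of_nonneg_right _ hPpos.le
      linarith
    have h7 : 2 * (-((P - 1) / (d - 1) * sg + (-w + P / d ^ J * (AJ - d ^ J * A)))) / P =
        X₀ - (-2 * w - 2 / (d - 1) * sg) / P := by
      rw [hX₀]
      field_simp
      ring
    rw [h7] at h6
    have h8 : X₀ ≤ Y₀ + Z₀ / P := by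
      rw [hZ₀]
      have : (S'.Res - 2 * w - 2 / (d - 1) * sg) / P =
          S'.Res / P + (-2 * w - 2 / (d - 1) * sg) / P := by
        rw [← add_div]
        congr 1
        ring
      rw [this]
      linarith
    refine h8.trans ?_
    have h9 : Z₀ / P ≤ |Z₀| / M := by
      have hPM : (M : ℝ) ≤ P := by
        have h10 : M < S.d ^ M := Nat.lt_pow_self (by omega)
        have h11 : (M : ℝ) ≤ d ^ M := by
          rw [hdd]
          exact_mod_cast h10.le
        refine h11.trans ?_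
        rw [hP, pow_add]
        have : 1 ≤ d ^ J := one_le_pow₀ (by linarith)
        nlinarith [pow_pos (by linarith : 0 < d) M]
      calc Z₀ / P ≤ |Z₀| / P := div_le_div_of_nonneg_right (le_abs_self _) hPpos.le
        _ ≤ |Z₀| / M := div_le_div_of_nonneg_left (abs_nonneg _) hMpos hPM
    linarith
  have hlim := Sys.limit_le key
  -- conclude
  have e1 : S'.Res / (d * (d - 1)) = S.Res / (d * (d - 1)) - w - 2 / (d - 1) * sg := by
    rw [hR']
    field_simp
  have e2 : kap * (S.Res / (d * (d - 1))) ≤ kap * (S'.Res / (d * (d - 1))) := by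
    apply mul_le_mul_of_nonneg_left _ (by positivity)
    exact div_le_div_of_nonneg_right hmin hdd1.le
  have e3 : AJ / d ^ J ≤ S.Res / ((d - 1) * d ^ J) := by
    rw [← div_div]
    exact div_le_div_of_nonneg_right hAJ (by positivity)
  have e4 : Y₀ = S'.Res / (d * (d - 1)) - kap * (S'.Res / (d * (d - 1))) := by
    rw [hY₀]
    ring
  have e5 : 2 * S.Res / ((d - 1) * d ^ J) = 2 * (S.Res / ((d - 1) * d ^ J)) := by ring
  rw [e4, e1, ← e1] at hlim
  rw [e5]
  rw [hX₀] at hlim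
  linarith

end HS

end Pool.Agent.V7H78.RP.UH
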