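import Pool.Agent.V7H78.RP.UG.B6
import Pool.Agent.V7H78.RP.UH.L3

/-!
# Rigidity for rational functions
-/

namespace Pool.Agent.V7H78.RP.UH

open Pool.Agent.V7H78.RP.UB Pool.Agent.V7H78.RP.UG Finset Polynomial

variable {k K : Type*} [Field k] [Field K] [Algebra k K]

/-- composition of a form with a pair of polynomials -/
noncomputable def hc (n : ℕ) (A p q : Polynomial K) : Polynomial K := hev n (A.map C) (p, q)

lemma hc_eval (n : ℕ) (A p q : Polynomial K) (x : K) :
    (hc n A p q).eval x = hev n A (p.eval x, q.eval x) := by
  unfold hc hev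
  rw [eval_finset_sum]
  apply Finset.sum_congr rfl
  intro i _
  simp

lemma hc_aeval {L : Type*} [Field L] [Algebra K L] (n : ℕ) (A p q : Polynomial K) (x : L) :
    aeval x (hc n A p q) = hev n (A.map (algebraMap K L)) (aeval x p, aeval x q) := by
  unfold hc hev
  rw [map_sum]
  apply Finset.sum_congr rfl
  intro i _
  simp

lemma hc_degree (n d : ℕ) (A p q : Polynomial K) (hp : p.natDegree ≤ d) (hq : q.natDegree ≤ d) :
    (hc n A p q).natDegree ≤ n * d := by
  unfold hc hev
  apply natDegree_sum_le_of_forall_le
  intro i hi
  rw [Finset.mem_range] at hi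
  rw [coeff_map]
  refine natDegree_mul_le.trans ?_
  have h1 : (C (A.coeff i) * p ^ i).natDegree ≤ i * d :=
    (natDegree_C_mul_le _ _).trans (natDegree_pow_le.trans (Nat.mul_le_mul_left _ hp))
  have h2 : (q ^ (n - i)).natDegree ≤ (n - i) * d :=
    natDegree_pow_le.trans (Nat.mul_le_mul_left _ hq)
  calc _ ≤ i * d + (n - i) * d := add_le_add h1 h2
    _ = n * d := by rw [← add_mul]; congr 1; omega

lemma hc_coeff (n d : ℕ) (A p q : Polynomial K) (hp : p.natDegree ≤ d) (hq : q.natDegree ≤ d) :
    (hc n A p q).coeff (n * d) = hev n A (p.coeff d, q.coeff d) := by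
  unfold hc hev
  rw [finset_sum_coeff]
  apply Finset.sum_congr rfl
  intro i hi
  rw [Finset.mem_range] at hi
  rw [coeff_map]
  have e1 : n * d = i * d + (n - i) * d := by rw [← add_mul]; congr 1; omega
  have h2 : (p ^ i).natDegree ≤ i * d := natDegree_pow_le.trans (Nat.mul_le_mul_left _ hp)
  have h3 : (q ^ (n - i)).natDegree ≤ (n - i) * d :=
    natDegree_pow_le.trans (Nat.mul_le_mul_left _ hq)
  simp only
  rw [mul_assoc, coeff_C_mul, e1, coeff_mul_add_eq_of_natDegree_le h2 h3,
    coeff_pow_of_natDegree_le hp, coeff_pow_of_natDegree_le hq]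
  ring

/-- coprimality is inherited -/
lemma hc_coprime (s : ℕ) (A B p q : Polynomial K) (hco : IsCoprime A B) (hpq : IsCoprime p q)
    (hA : A.natDegree + 2 ≤ s) (hB : B.natDegree ≤ s)
    (hs : A.natDegree + 2 = s ∨ B.natDegree = s) (hA0 : A ≠ 0) (hs2 : 2 ≤ s) :
    IsCoprime (hc (s - 2) A p q) (hc s B p q) := by
  refine (isCoprime_iff_aeval_ne_zero_of_isAlgClosed (k := K) (AlgebraicClosure K) _ _).mpr ?_
  intro x
  by_contra hcon
  push Not at hcon
  obtain ⟨h1, h2⟩ := hcon
  rw [hc_aeval] at h1 h2
  set φ := algebraMap K (AlgebraicClosure K) with hφ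
  have hAd : (A.map φ).natDegree ≤ s - 2 := natDegree_map_le.trans (by omega)
  have hBd : (B.map φ).natDegree ≤ s := natDegree_map_le.trans hB
  obtain ⟨u, w, huw⟩ := hco
  obtain ⟨u', w', huw'⟩ := hpq
  by_cases hq : aeval x q = 0
  · rw [hq, hev_zero] at h1 h2
    have hp : aeval x p ≠ 0 := by
      intro hp
      have := congrArg (aeval x) huw'
      rw [map_add, map_mul, map_mul, hp, hq, mul_zero, mul_zero, add_zero, map_one] at this
      exact zero_ne_one this
    have e1 := (mul_eq_zero.mp h1).resolve_right (pow_ne_zero _ hp)
    have e2 := (mul_eq_zero.mp h2).resolve_right (pow_ne_zero _ hp)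
    rw [coeff_map] at e1 e2
    have e1' : A.coeff (s - 2) = 0 := (map_eq_zero φ).mp e1
    have e2' : B.coeff s = 0 := (map_eq_zero φ).mp e2
    rcases hs with hs | hs
    · have : s - 2 = A.natDegree := by omega
      rw [this] at e1'
      exact hA0 (leadingCoeff_eq_zero.mp e1')
    · rw [← hs] at e2'
      have hB0 : B = 0 := leadingCoeff_eq_zero.mp e2'
      rw [hB0, natDegree_zero] at hs
      omega
  · rw [hev_eval _ _ hAd _ hq] at h1
    rw [hev_eval _ _ hBd _ hq] at h2
    have e1 := (mul_eq_zero.mp h1).resolve_left (pow_ne_zero _ hq)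
    have e2 := (mul_eq_zero.mp h2).resolve_left (pow_ne_zero _ hq)
    simp only at e1 e2
    rw [eval_map_algebraMap] at e1 e2
    have := congrArg (aeval (aeval x p / aeval x q : AlgebraicClosure K)) huw
    rw [map_add, map_mul, map_mul, e1, e2, mul_zero, mul_zero, add_zero, map_one] at this
    exact zero_ne_one this

/-- the degree argument -/
lemma rigid_rat (d s : ℕ) (hd : 2 ≤ d) (A B p q om w : Polynomial K) (hp : p.natDegree ≤ d)
    (hq : q.natDegree = d) (hpq : IsCoprime p q) (hco : IsCoprime A B) (hA0 : A ≠ 0)
    (hA : A.natDegree + 2 ≤ s) (hB : B.natDegree ≤ s)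
    (hs : A.natDegree + 2 = s ∨ B.natDegree = s) (hom : om.natDegree ≤ 2 * d)
    (hw : w.natDegree ≤ 2 * d - 2)
    (h : A * hc s B p q = (om * A + w * B) * hc (s - 2) A p q) : s = 2 := by
  have hs2 : 2 ≤ s := by omega
  have hcc := hc_coprime s A B p q hco hpq hA hB hs hA0 hs2
  set A' := hc (s - 2) A p q with hA'
  set B' := hc s B p q with hB'
  have hA'0 : A' ≠ 0 := by
    intro h0
    rw [h0, mul_zero] at h
    have h1 := (mul_eq_zero.mp h).resolve_left hA0
    rw [h0, h1] at hcc
    exact not_isCoprime_zero_zero hcc
  have hdvd : A' ∣ A := by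
    apply hcc.dvd_of_dvd_mul_right
    rw [h]
    exact dvd_mul_left _ _
  have hle : A'.natDegree ≤ A.natDegree := natDegree_le_of_dvd hdvd hA0
  have hA'c : A'.coeff ((s - 2) * d) = hev (s - 2) A (p.coeff d, q.coeff d) :=
    hc_coeff _ _ _ _ _ hp hq.le
  have hB'c : B'.coeff (s * d) = hev s B (p.coeff d, q.coeff d) := hc_coeff _ _ _ _ _ hp hq.le
  have hqd : q.coeff d ≠ 0 := by
    rw [← hq]
    apply leadingCoeff_ne_zero.mpr
    rintro rfl
    simp at hq
    omega
  by_cases hA'1 : A'.coeff ((s - 2) * d) = 0
  · -- then B' has full degree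
    have hB'1 : B'.coeff (s * d) ≠ 0 := by
      intro h0
      rw [hA'c, hev_eval (s - 2) A (by omega) _ hqd] at hA'1
      rw [hB'c, hev_eval s B hB _ hqd] at h0
      have e1 := (mul_eq_zero.mp hA'1).resolve_left (pow_ne_zero _ hqd)
      have e2 := (mul_eq_zero.mp h0).resolve_left (pow_ne_zero _ hqd)
      obtain ⟨u, w, huw⟩ := hco
      have := congrArg (eval (p.coeff d / q.coeff d)) huw
      simp only at e1 e2
      rw [eval_add, eval_mul, eval_mul, e1, e2, mul_zero, mul_zero, add_zero, eval_one] at this
      exact zero_ne_one this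
    have hB'd : s * d ≤ B'.natDegree := le_natDegree_of_ne_zero hB'1
    have hB'0 : B' ≠ 0 := by
      intro h0
      rw [h0, coeff_zero] at hB'1
      exact hB'1 rfl
    have h1 : (A * B').natDegree = A.natDegree + B'.natDegree := natDegree_mul hA0 hB'0
    have h2 : (A * B').natDegree ≤ (om * A + w * B).natDegree + A'.natDegree := by
      rw [h]
      exact natDegree_mul_le
    have h3 : (om * A + w * B).natDegree ≤ 2 * d + (s - 2) := by
      refine (natDegree_add_le _ _).trans (max_le ?_ ?_)
      · exact natDegree_mul_le.trans (by omega)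
      · exact natDegree_mul_le.trans (by omega)
    by_contra hne
    have h4 : s * d = (s - 2) * d + 2 * d := by
      rw [← add_mul]
      congr 1
      omega
    have h5 : 1 ≤ s - 2 := by omega
    have h6 : (s - 2) * 2 ≤ (s - 2) * d := Nat.mul_le_mul_left _ hd
    omega
  · have h1 : (s - 2) * d ≤ A'.natDegree := le_natDegree_of_ne_zero hA'1
    by_contra hne
    have h5 : 1 ≤ s - 2 := by omega
    have h6 : (s - 2) * 2 ≤ (s - 2) * d := Nat.mul_le_mul_left _ hd
    omega

theorem rigidityR [DecidableEq K] (Q : PlaceData k K) (p q : Polynomial K) (d : ℕ) (hd : 2 ≤ d)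
    (hp : p.natDegree ≤ d) (hq : q.natDegree = d) (hpq : IsCoprime p q) (P : Finset K)
    (hP : ∀ z ∈ P, q.eval z ≠ 0 ∧ p.eval z / q.eval z ∈ P) (m : ℕ) (A B : Polynomial K)
    (hne : A ≠ 0 ∨ B ≠ 0)
    (hA : A.natDegree ≤ m) (hB : B.natDegree ≤ m) (T : Finset K) (hTP : T ⊆ P)
    (hT : ∀ x ∈ T, A.eval x * Q.D x = B.eval x)
    (hbig : 2 * (d + 1) * (P \ T).card < P.card)
    (hN : 4 * ((m + 3) * (d + 1)) ≤ P.card) :
    ∃ α β γ : K, ∃ T' ⊆ T, T.card ≤ T'.card + m ∧
      ∀ x ∈ T', Q.D x = α * x ^ 2 + β * x + γ := by
  have hTc : (P \ T).card + T.card = P.card := by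
    rw [Finset.card_sdiff_of_subset hTP]
    have := Finset.card_le_card hTP
    omega
  have hTm : m < T.card := by
    have h1 : (P \ T).card * 6 ≤ 2 * (d + 1) * (P \ T).card := by
      rw [mul_comm]
      apply Nat.mul_le_mul_right
      omega
    have h2 : m * 3 ≤ (m + 3) * (d + 1) := by nlinarith
    omega
  have hA0 : A ≠ 0 := by
    rintro rfl
    have hB0 : B ≠ 0 := by
      rcases hne with h | h
      · exact absurd rfl h
      · exact h
    apply hB0
    apply eq_zero_of_natDegree_lt_card_of_eval_eq_zero' B T
    · intro x hx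
      have := hT x hx
      rw [eval_zero, zero_mul] at this
      exact this.symm
    · omega
  set fz : K → K := fun z => p.eval z / q.eval z with hfz
  set T₁ := T.filter fun x => fz x ∈ T with hT₁
  have hT₁c : P.card < 2 * T₁.card := by
    have h1 : (P \ T₁).card ≤ (P \ T).card + d * (P \ T).card := by
      have h2 : P \ T₁ ⊆ (P \ T) ∪ P.filter fun x => fz x ∈ P \ T := by
        intro x hx
        rw [Finset.mem_sdiff] at hx
        rw [Finset.mem_union]
        by_cases hxT : x ∈ T
        · right
          rw [Finset.mem_filter, Finset.mem_sdiff]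
          refine ⟨hx.1, (hP x hx.1).2, fun h => hx.2 ?_⟩
          rw [hT₁, Finset.mem_filter]
          exact ⟨hxT, h⟩
        · left
          rw [Finset.mem_sdiff]
          exact ⟨hx.1, hxT⟩
      refine (Finset.card_le_card h2).trans ((Finset.card_union_le _ _).trans ?_)
      apply Nat.add_le_add_left
      apply Finset.card_le_mul_card_image_of_maps_to (f := fz)
      · intro x hx
        exact (Finset.mem_filter.mp hx).2
      · intro y _
        have hfy : p - C y * q ≠ 0 := by
          intro h0
          have h3 : p = C y * q := sub_eq_zero.mp h0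
          rw [h3] at hpq
          have h4 : IsUnit q := by
            obtain ⟨a, b, hab⟩ := hpq
            apply IsUnit.of_mul_eq_one (a * C y + b)
            rw [← hab]
            ring
          have := natDegree_eq_zero_of_isUnit h4
          omega
        have h3 : ((P.filter fun x => fz x ∈ P \ T).filter fun x => fz x = y) ⊆
            (p - C y * q).roots.toFinset := by
          intro x hx
          rw [Finset.mem_filter, Finset.mem_filter] at hx
          rw [Multiset.mem_toFinset, mem_roots hfy, IsRoot.def, eval_sub, eval_mul, eval_C]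
          have h4 := (hP x hx.1.1).1
          have h5 : p.eval x / q.eval x = y := hx.2
          rw [div_eq_iff h4] at h5
          rw [h5, sub_self]
        refine (Finset.card_le_card h3).trans ((Multiset.toFinset_card_le _).trans ?_)
        refine (card_roots' _).trans ?_
        refine (natDegree_sub_le _ _).trans (max_le hp ?_)
        exact (natDegree_C_mul_le _ _).trans hq.le
    have h4 : (P \ T₁).card + T₁.card = P.card := by
      have hsub : T₁ ⊆ P := (Finset.filter_subset _ _).trans hTP
      rw [Finset.card_sdiff_of_subset hsub]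
      have := Finset.card_le_card hsub
      omega
    have h5 : 2 * (d + 1) * (P \ T).card = 2 * ((P \ T).card + d * (P \ T).card) := by ring
    omega
  obtain ⟨A', B', g, hrel, hgA, hgB⟩ := UniqueFactorizationMonoid.exists_reduced_factors A hA0 B
  have hco : IsCoprime A' B' := hrel.isCoprime
  have hg0 : g ≠ 0 := left_ne_zero_of_mul (hgA ▸ hA0 : g * A' ≠ 0)
  have hA'0 : A' ≠ 0 := right_ne_zero_of_mul (hgA ▸ hA0 : g * A' ≠ 0)
  have hgd : g.natDegree ≤ m := by
    refine (natDegree_le_of_dvd ?_ hA0).trans hA
    exact ⟨A', hgA.symm⟩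
  have hA'd : A'.natDegree ≤ m := by
    refine (natDegree_le_of_dvd ?_ hA0).trans hA
    exact ⟨g, by rw [mul_comm]; exact hgA.symm⟩
  have hB'd : B'.natDegree ≤ m := by
    by_cases hB0 : B = 0
    · have : B' = 0 := by
        rw [hB0] at hgB
        exact (mul_eq_zero.mp hgB).resolve_left hg0
      rw [this]
      simp
    · refine (natDegree_le_of_dvd ?_ hB0).trans hB
      exact ⟨g, by rw [mul_comm]; exact hgB.symm⟩
  set s := max (A'.natDegree + 2) B'.natDegree with hs
  have hsm : s ≤ m + 2 := by
    rw [hs]
    apply max_le <;> omega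
  have hs2 : 2 ≤ s := by
    rw [hs]
    exact le_max_of_le_left (by omega)
  set T' := T.filter fun x => g.eval x ≠ 0 with hT'
  have hT'T : T.card ≤ T'.card + m := by
    have h3 : T ⊆ T' ∪ g.roots.toFinset := by
      intro x hx
      rw [Finset.mem_union]
      by_cases h4 : g.eval x = 0
      · right
        rw [Multiset.mem_toFinset, mem_roots hg0]
        exact h4
      · left
        rw [hT', Finset.mem_filter]
        exact ⟨hx, h4⟩
    refine (Finset.card_le_card h3).trans ((Finset.card_union_le _ _).trans ?_)
    apply Nat.add_le_add_left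
    exact (Multiset.toFinset_card_le _).trans ((card_roots' _).trans hgd)
  have hred : ∀ x ∈ T', A'.eval x * Q.D x = B'.eval x := by
    intro x hx
    rw [hT', Finset.mem_filter] at hx
    have h1 := hT x hx.1
    rw [← hgA, ← hgB, eval_mul, eval_mul] at h1
    apply mul_left_cancel₀ hx.2
    linear_combination h1
  set om := cD Q.D p * q - p * cD Q.D q with hom
  set w := derivative p * q - p * derivative q with hw
  have homd : om.natDegree ≤ 2 * d := by
    refine (natDegree_sub_le _ _).trans (max_le ?_ ?_)
    · refine natDegree_mul_le.trans ?_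
      have := cD_natDegree Q.D p
      omega
    · refine natDegree_mul_le.trans ?_
      have := cD_natDegree Q.D q
      omega
  have hwd : w.natDegree ≤ 2 * d - 2 := by
    have h1 : w.natDegree ≤ 2 * d - 1 := by
      refine (natDegree_sub_le _ _).trans (max_le ?_ ?_)
      · refine natDegree_mul_le.trans ?_
        have := natDegree_derivative_le p
        omega
      · refine natDegree_mul_le.trans ?_
        have := natDegree_derivative_le q
        omega
    have h2 : w.coeff (2 * d - 1) = 0 := by
      have e1 : 2 * d - 1 = (d - 1) + d := by omega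
      have hp' : (derivative p).natDegree ≤ d - 1 := (natDegree_derivative_le p).trans (by omega)
      have hq' : (derivative q).natDegree ≤ d - 1 := (natDegree_derivative_le q).trans (by omega)
      rw [hw, coeff_sub, mul_comm p, e1, coeff_mul_add_eq_of_natDegree_le hp' hq.le,
        coeff_mul_add_eq_of_natDegree_le hq' hp, coeff_derivative, coeff_derivative]
      have e2 : d - 1 + 1 = d := by omega
      rw [e2]
      ring
    by_contra hcon
    have h3 : w.natDegree = 2 * d - 1 := by omega
    rw [← h3] at h2
    have h4 : w = 0 := leadingCoeff_eq_zero.mp h2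
    rw [h4, natDegree_zero] at h3
    omega
  -- the functional equation
  have hfun : A' * hc s B' p q = (om * A' + w * B') * hc (s - 2) A' p q := by
    rw [← sub_eq_zero]
    apply eq_zero_of_natDegree_lt_card_of_eval_eq_zero' _
      (T₁.filter fun x => g.eval x ≠ 0 ∧ g.eval (fz x) ≠ 0)
    · intro x hx
      rw [Finset.mem_filter, hT₁, Finset.mem_filter] at hx
      obtain ⟨⟨hxT, hfT⟩, hgx, hgfx⟩ := hx
      have h1 := hred x (by rw [hT', Finset.mem_filter]; exact ⟨hxT, hgx⟩)
      have h2 := hred (fz x) (by rw [hT', Finset.mem_filter]; exact ⟨hfT, hgfx⟩)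
      have hqx := (hP x (hTP hxT)).1
      have h3 : Q.D (fz x) * (q.eval x) ^ 2 = om.eval x + w.eval x * Q.D x := by
        have e1 : Q.D (p.eval x) = Q.D (fz x) * q.eval x + fz x * Q.D (q.eval x) := by
          have e2 : p.eval x = fz x * q.eval x := by
            simp only [hfz]
            field_simp
          rw [e2, Derivation.leibniz]
          simp only [smul_eq_mul]
          ring
        have e2 : fz x * q.eval x = p.eval x := by
          simp only [hfz]
          field_simp
        rw [D_eval] at e1
        rw [D_eval] at e1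
        rw [hom, hw]
        simp only [eval_sub, eval_mul]
        linear_combination (-(q.eval x)) * e1 - ((cD Q.D q).eval x +
          (derivative q).eval x * Q.D x) * e2
      have hA'e : hev (s - 2) A' (p.eval x, q.eval x) =
          (q.eval x) ^ (s - 2) * A'.eval (fz x) :=
        hev_eval _ _ (by have := le_max_left (A'.natDegree + 2) B'.natDegree; omega) _ hqx
      have hB'e : hev s B' (p.eval x, q.eval x) = (q.eval x) ^ s * B'.eval (fz x) :=
        hev_eval _ _ (le_max_right _ _) _ hqx
      have hpow : (q.eval x) ^ s = (q.eval x) ^ (s - 2) * (q.eval x) ^ 2 := by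
        rw [← pow_add]
        congr 1
        omega
      rw [eval_sub, eval_mul, eval_mul, hc_eval, hc_eval, hA'e, hB'e, hpow, eval_add, eval_mul,
        eval_mul, ← h2]
      linear_combination ((q.eval x) ^ (s - 2) * A'.eval (fz x) * A'.eval x) * h3 +
        ((q.eval x) ^ (s - 2) * A'.eval (fz x) * w.eval x) * h1
    · -- counting
      have h1 : (A' * hc s B' p q - (om * A' + w * B') * hc (s - 2) A' p q).natDegree ≤
          m + (m + 2) * d + 2 := by
        refine (natDegree_sub_le _ _).trans (max_le ?_ ?_)
        · refine natDegree_mul_le.trans ?_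
          have := hc_degree s d B' p q hp hq.le
          have h2 : s * d ≤ (m + 2) * d := Nat.mul_le_mul_right _ hsm
          omega
        · refine natDegree_mul_le.trans ?_
          have := hc_degree (s - 2) d A' p q hp hq.le
          have h2 : (s - 2) * d ≤ m * d := Nat.mul_le_mul_right _ (by omega)
          have h3 : (om * A' + w * B').natDegree ≤ 2 * d + m := by
            refine (natDegree_add_le _ _).trans (max_le ?_ ?_)
            · exact natDegree_mul_le.trans (by omega)
            · exact natDegree_mul_le.trans (by omega)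
          have h4 : (m + 2) * d = m * d + 2 * d := by ring
          omega
      refine lt_of_le_of_lt h1 ?_
      have h2 : T₁.card ≤ (T₁.filter fun x => g.eval x ≠ 0 ∧ g.eval (fz x) ≠ 0).card +
          (m + d * m) := by
        have h3 : T₁ ⊆ (T₁.filter fun x => g.eval x ≠ 0 ∧ g.eval (fz x) ≠ 0) ∪
            (g.roots.toFinset ∪ T₁.filter fun x => fz x ∈ g.roots.toFinset) := by
          intro x hx
          rw [Finset.mem_union, Finset.mem_union]
          by_cases h4 : g.eval x = 0
          · right; left
            rw [Multiset.mem_toFinset, mem_roots hg0]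
            exact h4
          · by_cases h5 : g.eval (fz x) = 0
            · right; right
              rw [Finset.mem_filter, Multiset.mem_toFinset, mem_roots hg0]
              exact ⟨hx, h5⟩
            · left
              rw [Finset.mem_filter]
              exact ⟨hx, h4, h5⟩
        refine (Finset.card_le_card h3).trans ((Finset.card_union_le _ _).trans ?_)
        apply Nat.add_le_add_left
        refine (Finset.card_union_le _ _).trans ?_
        have hroots : g.roots.toFinset.card ≤ m :=
          (Multiset.toFinset_card_le _).trans ((card_roots' _).trans hgd)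
        apply add_le_add hroots
        refine le_trans ?_ (Nat.mul_le_mul_left d hroots)
        apply Finset.card_le_mul_card_image_of_maps_to (f := fz)
        · intro x hx
          exact (Finset.mem_filter.mp hx).2
        · intro y _
          have hfy : p - C y * q ≠ 0 := by
            intro h0
            have h3 : p = C y * q := sub_eq_zero.mp h0
            rw [h3] at hpq
            have h4 : IsUnit q := by
              obtain ⟨a, b, hab⟩ := hpq
              apply IsUnit.of_mul_eq_one (a * C y + b)
              rw [← hab]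
              ring
            have := natDegree_eq_zero_of_isUnit h4
            omega
          have h3 : ((T₁.filter fun x => fz x ∈ g.roots.toFinset).filter fun x => fz x = y) ⊆
              (p - C y * q).roots.toFinset := by
            intro x hx
            rw [Finset.mem_filter, Finset.mem_filter] at hx
            rw [Multiset.mem_toFinset, mem_roots hfy, IsRoot.def, eval_sub, eval_mul, eval_C]
            have hxP : x ∈ P := hTP (Finset.mem_filter.mp hx.1.1).1
            have h4 := (hP x hxP).1
            have h5 : p.eval x / q.eval x = y := hx.2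
            rw [div_eq_iff h4] at h5
            rw [h5, sub_self]
          refine (Finset.card_le_card h3).trans ((Multiset.toFinset_card_le _).trans ?_)
          refine (card_roots' _).trans ?_
          refine (natDegree_sub_le _ _).trans (max_le hp ?_)
          exact (natDegree_C_mul_le _ _).trans hq.le
      have h3 : (m + 3) * (d + 1) = m * d + m + 3 * d + 3 := by ring
      have h4 : (m + 2) * d = m * d + 2 * d := by ring
      have h5 : d * m = m * d := by ring
      rw [h5] at h2
      rw [h3] at hN
      rw [h4]
      omega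
  have hs' : A'.natDegree + 2 = s ∨ B'.natDegree = s := by
    rw [hs]
    rcases le_total (A'.natDegree + 2) B'.natDegree with h | h
    · right; exact (max_eq_right h).symm
    · left; exact (max_eq_left h).symm
  have hseq := rigid_rat d s hd A' B' p q om w hp hq hpq hco hA'0 (le_max_left _ _)
    (le_max_right _ _) hs' homd hwd hfun
  have hA'1 : A'.natDegree = 0 := by
    have := le_max_left (A'.natDegree + 2) B'.natDegree
    omega
  have hB'1 : B'.natDegree ≤ 2 := by
    have := le_max_right (A'.natDegree + 2) B'.natDegree
    omega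
  obtain ⟨a, ha⟩ := natDegree_eq_zero.mp hA'1
  have ha0 : a ≠ 0 := by
    rintro rfl
    apply hA'0
    rw [← ha, C_0]
  have hBe : ∀ x, B'.eval x = B'.coeff 2 * x ^ 2 + B'.coeff 1 * x + B'.coeff 0 := by
    intro x
    rw [eval_eq_sum_range' (n := 3) (by omega)]
    rw [Finset.sum_range_succ, Finset.sum_range_succ, Finset.sum_range_one]
    ring
  refine ⟨B'.coeff 2 / a, B'.coeff 1 / a, B'.coeff 0 / a, T', Finset.filter_subset _ _, hT'T, ?_⟩
  intro x hx
  have h1 := hred x hx
  rw [hBe, ← ha, eval_C] at h1
  field_simp
  linear_combination h1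

end Pool.Agent.V7H78.RP.UH
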